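import Pool.Agent.MP_4e5648_mp.H15.Curve3

set_option autoImplicit false

namespace Pool.Agent.MP_4e5648_mp.H15

open Set Real

lemma encard_le_of_finset {X : Type*} {A : Set X} {n : ℕ}
    (h : ∀ T : Finset X, (∀ x ∈ T, x ∈ A) → T.card ≤ n) : A.encard ≤ n := by
  by_cases hA : A.Finite
  · rw [← hA.coe_toFinset, encard_coe_eq_coe_finsetCard]
    exact_mod_cast h _ (by simp)
  · obtain ⟨T, hT, hc⟩ := Set.Infinite.exists_subset_card_eq hA (n + 1)
    have := h T hT
    omega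

lemma roots_encard {K : Type*} [CommRing K] [IsDomain K] (p : Polynomial K) (hp : p ≠ 0) {n : ℕ}
    (hn : p.natDegree ≤ n) : {x | p.eval x = 0}.encard ≤ n := by
  classical
  refine encard_le_of_finset fun T hT => ?_
  refine le_trans ?_ ((Multiset.toFinset_card_le _).trans (p.card_roots'.trans hn))
  exact Finset.card_le_card fun x hx => by simpa [hp] using hT x hx

lemma trig_roots (p : Polynomial ℂ) (hp : p ≠ 0) {n : ℕ} (hn : p.natDegree ≤ n) :
    {x : ℝ | x ∈ Ico 0 (2 * π) ∧ p.eval (ex x) = 0}.encard ≤ n :=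
  (encard_le_encard_of_injOn (f := fun x : ℝ => ex x) (fun _ hx => hx.2)
    (ex_injOn.mono fun _ hx => hx.1)).trans (roots_encard p hp hn)

lemma ex_cs (x : ℝ) : ex x * (Real.cos x : ℝ) = (ex x ^ 2 + 1) / 2 ∧
    ex x * (Real.sin x : ℝ) = -Complex.I * (ex x ^ 2 - 1) / 2 := by
  have h := Complex.cos_sq_add_sin_sq x
  rw [ex_eq]
  push_cast
  constructor
  · linear_combination (1 / 2 : ℂ) * h - (Complex.sin x ^ 2 / 2) * Complex.I_mul_I
  · linear_combination (Complex.I / 2) * h +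
      (Complex.cos x * Complex.sin x + Complex.sin x ^ 2 * Complex.I / 2) * Complex.I_mul_I

lemma trig2 {f : ℝ → ℝ} (a0 a1 a2 a3 a4 a5 : ℝ)
    (hf : ∀ x, f x = a0 + a1 * cos x + a2 * sin x + a3 * cos x ^ 2 + a4 * (cos x * sin x)
      + a5 * sin x ^ 2) {x0 : ℝ} (h0 : f x0 ≠ 0) :
    {x : ℝ | x ∈ Ico 0 (2 * π) ∧ f x = 0}.encard ≤ 4 := by
  open Polynomial in
  set c : ℂ[X] := C (1 / 2) * (X ^ 2 + 1) with hc
  open Polynomial in
  set s : ℂ[X] := C (-Complex.I / 2) * (X ^ 2 - 1) with hs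
  open Polynomial in
  set p : ℂ[X] := C (a0 : ℂ) * X ^ 2 + C (a1 : ℂ) * X * c + C (a2 : ℂ) * X * s + C (a3 : ℂ) * c ^ 2
    + C (a4 : ℂ) * (c * s) + C (a5 : ℂ) * s ^ 2 with hp
  have key : ∀ x : ℝ, p.eval (ex x) = ex x ^ 2 * f x := by
    intro x
    obtain ⟨h1, h2⟩ := ex_cs x
    have e1 : c.eval (ex x) = ex x * (Real.cos x : ℝ) := by rw [h1]; simp [hc]; ring
    have e2 : s.eval (ex x) = ex x * (Real.sin x : ℝ) := by rw [h2]; simp [hs]; ring
    simp only [hp, Polynomial.eval_add, Polynomial.eval_mul, Polynomial.eval_pow, Polynomial.eval_C,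
      Polynomial.eval_X, e1, e2, hf]
    push_cast; ring
  have hp0 : p ≠ 0 := by
    intro h
    have := key x0
    rw [h] at this
    simp [ex_ne_zero, h0] at this
  have hd : p.natDegree ≤ 4 := by rw [hp, hc, hs]; compute_degree
  refine le_trans (encard_le_encard fun x hx => ?_) (trig_roots p hp0 hd)
  exact ⟨hx.1, by rw [key, hx.2]; simp⟩

lemma trig1 {f : ℝ → ℝ} (a0 a1 a2 : ℝ)
    (hf : ∀ x, f x = a0 + a1 * cos x + a2 * sin x) {x0 : ℝ} (h0 : f x0 ≠ 0) :
    {x : ℝ | x ∈ Ico 0 (2 * π) ∧ f x = 0}.encard ≤ 2 := by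
  open Polynomial in
  set c : ℂ[X] := C (1 / 2) * (X ^ 2 + 1) with hc
  open Polynomial in
  set s : ℂ[X] := C (-Complex.I / 2) * (X ^ 2 - 1) with hs
  open Polynomial in
  set p : ℂ[X] := C (a0 : ℂ) * X + C (a1 : ℂ) * c + C (a2 : ℂ) * s with hp
  have key : ∀ x : ℝ, p.eval (ex x) = ex x * f x := by
    intro x
    obtain ⟨h1, h2⟩ := ex_cs x
    have e1 : c.eval (ex x) = ex x * (Real.cos x : ℝ) := by rw [h1]; simp [hc]; ring
    have e2 : s.eval (ex x) = ex x * (Real.sin x : ℝ) := by rw [h2]; simp [hs]; ring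
    simp only [hp, Polynomial.eval_add, Polynomial.eval_mul, Polynomial.eval_C,
      Polynomial.eval_X, e1, e2, hf]
    push_cast; ring
  have hp0 : p ≠ 0 := by
    intro h
    have := key x0
    rw [h] at this
    simp [ex_ne_zero, h0] at this
  have hd : p.natDegree ≤ 2 := by rw [hp, hc, hs]; compute_degree
  refine le_trans (encard_le_encard fun x hx => ?_) (trig_roots p hp0 hd)
  exact ⟨hx.1, by rw [key, hx.2]; simp⟩

variable (e α b : ℝ)

noncomputable def Qr (x : ℝ) : ℝ := Qc e α b 1 (cos x) (sin x)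
noncomputable def P1r (x : ℝ) : ℝ := P1c e 1 (cos x) (sin x)
noncomputable def Q1r (x : ℝ) : ℝ := Q1c e α b 1 (cos x) (sin x)
noncomputable def Wr (x : ℝ) : ℝ := Wc e α b (cos x) (sin x)

lemma hasDerivAt_P1r (E : ℝ) : HasDerivAt (P1r e) (P2c e (cos E) (sin E)) E := by
  have h := ((((hasDerivAt_cos E).const_mul e).const_add 1).const_mul (-2)).mul
    ((hasDerivAt_sin E).const_mul e)
  refine HasDerivAt.congr_deriv h ?_
  simp [P2c]; ring

lemma hasDerivAt_Qr (E : ℝ) : HasDerivAt (Qr e α b) (Q1r e α b E) E := by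
  have h := ((((hasDerivAt_cos E).const_mul e).const_add 1).pow 2).sub
    (((((hasDerivAt_cos E).const_add (e * 1)).const_mul α).add
      ((hasDerivAt_sin E).const_mul b)).pow 2)
  refine HasDerivAt.congr_deriv h ?_
  simp [Q1r, Q1c]

lemma hasDerivAt_Q1r (E : ℝ) : HasDerivAt (Q1r e α b) (Q2c e α b (cos E) (sin E)) E := by
  have h := (((((hasDerivAt_cos E).const_mul e).const_add 1).const_mul (-2)).mul
    ((hasDerivAt_sin E).const_mul e)).sub
    ((((((hasDerivAt_cos E).const_add (e * 1)).const_mul α).add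
      ((hasDerivAt_sin E).const_mul b)).const_mul 2).mul
      (((hasDerivAt_sin E).const_mul (-α)).add ((hasDerivAt_cos E).const_mul b)))
  refine HasDerivAt.congr_deriv h ?_
  simp [Q2c]; ring

variable {e α b}

lemma r_pos (e0 : 0 < e) (e1 : e < 1) (x : ℝ) : 0 < 1 + e * cos x := by
  nlinarith [neg_one_le_cos x]

lemma P1r_ne (e0 : 0 < e) (e1 : e < 1) {x : ℝ} (hx : sin x ≠ 0) : P1r e x ≠ 0 := by
  have := r_pos e0 e1 x
  simp only [P1r, P1c]
  positivity

/-- Rolle step on an arc where the sine does not vanish -/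
lemma rolle_arc (e0 : 0 < e) (e1 : e < 1) (hQ : ∀ x, 0 < Qr e α b x) {R : ℝ} (hR : 0 < R)
    {l u : ℝ} (hs : ∀ x ∈ Ioo l u, sin x ≠ 0) :
    {x | x ∈ Ioo l u ∧ (R * Q1r e α b x) ^ 2 = P1r e x ^ 2 * Qr e α b x}.encard ≤
      {x | x ∈ Ioo l u ∧ (Wr e α b x = 0 ∨ Q1r e α b x = 0)}.encard + 1 := by
  set t := {x | x ∈ Ioo l u ∧ (Wr e α b x = 0 ∨ Q1r e α b x = 0)} with ht
  by_cases hf : t.Finite
  swap
  · rw [Set.Infinite.encard_eq hf]; simp
  rw [← hf.coe_toFinset, encard_coe_eq_coe_finsetCard]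
  refine le_trans (encard_le_of_finset (n := hf.toFinset.card + 1) fun T hT => ?_) (by simp)
  refine Finset.card_le_of_interleaved fun x hx y hy hxy _ => ?_
  set H : ℝ → ℝ := fun x => R * (Q1r e α b x / (P1r e x * √(Qr e α b x))) with hH
  have hsub : Icc x y ⊆ Ioo l u := fun z hz =>
    ⟨(hT x hx).1.1.trans_le hz.1, hz.2.trans_lt (hT y hy).1.2⟩
  have hd : ∀ z ∈ Ioo l u, HasDerivAt H
      (R * (Wr e α b z / (2 * P1r e z ^ 2 * Qr e α b z * √(Qr e α b z)))) z := by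
    intro z hz
    have h1 := P1r_ne e0 e1 (hs z hz)
    have h2 : √(Qr e α b z) ≠ 0 := (sqrt_pos.2 (hQ z)).ne'
    have h3 := (hQ z).ne'
    have d := ((hasDerivAt_Q1r e α b z).div ((hasDerivAt_P1r e z).mul
      ((hasDerivAt_Qr e α b z).sqrt h3)) (mul_ne_zero h1 h2)).const_mul R
    refine HasDerivAt.congr_deriv d ?_
    have h4 : Wr e α b z = 2 * Qr e α b z * (P1r e z * Q2c e α b (cos z) (sin z)
      - P2c e (cos z) (sin z) * Q1r e α b z) - P1r e z * Q1r e α b z ^ 2 := rfl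
    have h5 := sq_sqrt (hQ z).le
    rw [h4]
    simp only [Pi.mul_apply]
    set ρ := √(Qr e α b z)
    rw [← h5]
    field_simp
    ring
  have hc : ContinuousOn H (Icc x y) := fun z hz =>
    (hd z (hsub hz)).continuousAt.continuousWithinAt
  have hsq : ∀ z ∈ T, H z = 1 ∨ H z = -1 := by
    intro z hz
    have h1 := P1r_ne e0 e1 (hs z (hT z hz).1)
    have h2 : √(Qr e α b z) ≠ 0 := (sqrt_pos.2 (hQ z)).ne'
    have h3 := (hT z hz).2
    have h5 := sq_sqrt (hQ z).le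
    rw [← sq_eq_one_iff, hH]
    simp only
    rw [← mul_div_assoc, div_pow, h3, mul_pow, h5]
    exact div_self (mul_ne_zero (pow_ne_zero _ h1) (hQ z).ne')
  by_cases hxy' : H x = H y
  · obtain ⟨z, hz, hz'⟩ := exists_hasDerivAt_eq_zero hxy hc hxy'
      (fun z hz => hd z (hsub (Ioo_subset_Icc_self hz)))
    have hz2 := hsub (Ioo_subset_Icc_self hz)
    have h1 := P1r_ne e0 e1 (hs z hz2)
    have h2 : √(Qr e α b z) ≠ 0 := (sqrt_pos.2 (hQ z)).ne'
    have h3 := (hQ z).ne'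
    refine ⟨z, by simpa [ht] using ⟨hz2, Or.inl (by simpa [hR.ne', h1, h2, h3] using hz')⟩, hz⟩
  · have : (0 : ℝ) ∈ H '' Ioo x y := by
      rcases hsq x hx with h1 | h1 <;> rcases hsq y hy with h2 | h2
      · exact absurd (h1.trans h2.symm) hxy'
      · exact intermediate_value_Ioo' hxy.le hc (by rw [h1, h2]; norm_num)
      · exact intermediate_value_Ioo hxy.le hc (by rw [h1, h2]; norm_num)
      · exact absurd (h1.trans h2.symm) hxy'
    obtain ⟨z, hz, hz'⟩ := this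
    have hz2 := hsub (Ioo_subset_Icc_self hz)
    have h1 := P1r_ne e0 e1 (hs z hz2)
    have h2 : √(Qr e α b z) ≠ 0 := (sqrt_pos.2 (hQ z)).ne'
    refine ⟨z, by simpa [ht] using ⟨hz2, Or.inr (by simpa [hH, hR.ne', h1, h2] using hz')⟩, hz⟩

end Pool.Agent.MP_4e5648_mp.H15
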