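import Pool.Agent.MP_4e5648_mp.H15.Count1

set_option autoImplicit false

namespace Pool.Agent.MP_4e5648_mp.H15

open Set Real

variable {e α b R : ℝ}

/-- eccentric anomalies off the apse line that solve the squared reduced equation -/
def Sol (e α b R : ℝ) : Set ℝ :=
  {x | x ∈ Ico 0 (2 * π) ∧ sin x ≠ 0 ∧ (R * Q1r e α b x) ^ 2 = P1r e x ^ 2 * Qr e α b x}

lemma split_arcs {x : ℝ} (hx : x ∈ Ico 0 (2 * π)) (hs : sin x ≠ 0) :
    x ∈ Ioo 0 π ∨ x ∈ Ioo π (2 * π) := by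
  have h0 : x ≠ 0 := by rintro rfl; simp at hs
  have h1 : x ≠ π := by rintro rfl; simp at hs
  rcases lt_or_gt_of_ne h1 with h | h
  · exact Or.inl ⟨lt_of_le_of_ne hx.1 h0.symm, h⟩
  · exact Or.inr ⟨h, hx.2⟩

lemma sin_neg_arc {x : ℝ} (hx : x ∈ Ioo π (2 * π)) : sin x < 0 := by
  rw [← sin_sub_two_pi]
  exact sin_neg_of_neg_of_neg_pi_lt (by linarith [hx.2]) (by linarith [hx.1])

lemma sol_le (e0 : 0 < e) (e1 : e < 1) (hQ : ∀ x, 0 < Qr e α b x) (hR : 0 < R) {m : ℕ}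
    (hW : {x | x ∈ Ico 0 (2 * π) ∧ sin x ≠ 0 ∧ Wr e α b x = 0}.encard ≤ m)
    {x0 : ℝ} (h0 : Q1r e α b x0 ≠ 0) : (Sol e α b R).encard ≤ m + 6 := by
  have hq := trig2 (f := Q1r e α b) 0 (-2 * α * e * b) (-2 * e + 2 * α ^ 2 * e) (-2 * α * b)
    (-2 * e ^ 2 + 2 * α ^ 2 - 2 * b ^ 2) (2 * α * b) (fun x => by simp only [Q1r, Q1c]; ring) h0
  have s1 : ∀ x ∈ Ioo 0 π, sin x ≠ 0 := fun x hx => (sin_pos_of_mem_Ioo hx).ne'
  have s2 : ∀ x ∈ Ioo π (2 * π), sin x ≠ 0 := fun x hx => (sin_neg_arc hx).ne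
  have a1 := rolle_arc e0 e1 hQ hR s1
  have a2 := rolle_arc e0 e1 hQ hR s2
  set t1 := {x | x ∈ Ioo 0 π ∧ (Wr e α b x = 0 ∨ Q1r e α b x = 0)}
  set t2 := {x | x ∈ Ioo π (2 * π) ∧ (Wr e α b x = 0 ∨ Q1r e α b x = 0)}
  have hd : Disjoint t1 t2 := disjoint_left.2 fun x h1 h2 => lt_asymm h1.1.2 h2.1.1
  have hp := pi_pos
  have hu : t1.encard + t2.encard ≤ m + 4 := by
    rw [← encard_union_eq hd]
    refine le_trans (encard_le_encard ?_) ((encard_union_le _ _).trans (add_le_add hW hq))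
    rintro x (⟨hx, h | h⟩ | ⟨hx, h | h⟩)
    · exact Or.inl ⟨⟨hx.1.le, by linarith [hx.2]⟩, s1 x hx, h⟩
    · exact Or.inr ⟨⟨hx.1.le, by linarith [hx.2]⟩, h⟩
    · exact Or.inl ⟨⟨by linarith [hx.1], hx.2⟩, s2 x hx, h⟩
    · exact Or.inr ⟨⟨by linarith [hx.1], hx.2⟩, h⟩
  calc (Sol e α b R).encard ≤ _ := encard_le_encard fun x hx =>
        (split_arcs hx.1 hx.2.1).imp (fun h => And.intro h hx.2.2) (fun h => And.intro h hx.2.2)
    _ ≤ _ := encard_union_le _ _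
    _ ≤ t1.encard + 1 + (t2.encard + 1) := add_le_add a1 a2
    _ = t1.encard + t2.encard + 2 := by ring
    _ ≤ m + 4 + 2 := by gcongr
    _ = m + 6 := by ring

lemma Gen.sol_le (h : Gen e α b) (hR : 0 < R) : (Sol e α b R).encard ≤ 10 := by
  have := H15.sol_le (m := 4) (x0 := 0) h.e0 h.e1 h.Qpos hR
    (encard_le_of_finset fun T hT => h.card_W T (fun x hx => (hT x hx).1) fun x hx => (hT x hx).2.2)
    (by
      have := h.hα; have := h.hb; have := h.e0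
      simp only [Q1r, Q1c, sin_zero, cos_zero]
      rw [show -2 * (1 + e * 1) * (e * 0) - 2 * (α * (e * 1 + 1) + b * 0) * (-α * 0 + b * 1)
        = -2 * α * b * (e + 1) by ring]
      positivity)
  exact this.trans (by norm_num)

lemma sol_le_b (e0 : 0 < e) (e1 : e < 1) (hα : α ^ 2 < 1) (hR : 0 < R) :
    (Sol e α 0 R).encard ≤ 6 := by
  have he : 0 < 1 - e ^ 2 := by nlinarith
  have hQ : ∀ x, 0 < Qr e α 0 x := fun x =>
    Qc_pos e0 e1 (by nlinarith [mul_pos he (sub_pos.2 hα)]) (cos_sq_add_sin_sq x)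
  have := sol_le (m := 0) (x0 := π / 2) e0 e1 hQ hR ?_ ?_
  · simpa using this
  · simp only [Nat.cast_zero, nonpos_iff_eq_zero, encard_eq_zero, eq_empty_iff_forall_notMem]
    rintro x ⟨-, hs, hx⟩
    have hr := r_pos e0 e1 x
    have key : Wr e α 0 x = sin x ^ 3 * (2 * (1 + e * cos x) * e *
        (2 * (1 + e * cos x) * e - 2 * α ^ 2 * (e + cos x)) ^ 2
        + 8 * Qr e α 0 x * e * α ^ 2 * (1 - e ^ 2)) := by
      simp only [Wr, Wc, Qr, Qc, P1c, Q1c, P2c, Q2c]; ring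
    rw [key] at hx
    refine absurd hx (mul_ne_zero (pow_ne_zero _ hs) (ne_of_gt ?_))
    have := hQ x
    by_cases h : α = 0
    · simp only [h]; norm_num; positivity
    · positivity
  · simp only [Q1r, Q1c, sin_pi_div_two, cos_pi_div_two]
    nlinarith [mul_pos e0 (sub_pos.2 hα)]

lemma cos_two_to_one {A : Set ℝ} {n : ℕ} (hA : A.encard ≤ n) :
    {x | x ∈ Ico 0 (2 * π) ∧ sin x ≠ 0 ∧ cos x ∈ A}.encard ≤ n + n := by
  have a1 : {x | x ∈ Ioo 0 π ∧ cos x ∈ A}.encard ≤ n :=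
    (encard_le_encard_of_injOn (f := cos) (fun _ hx => hx.2)
      (injOn_cos.mono fun _ hx => Ioo_subset_Icc_self hx.1)).trans hA
  have a2 : {x | x ∈ Ioo π (2 * π) ∧ cos x ∈ A}.encard ≤ n := by
    refine (encard_le_encard_of_injOn (f := cos) (fun _ hx => hx.2) ?_).trans hA
    intro x hx y hy hxy
    have := injOn_cos (x₁ := 2 * π - x) (x₂ := 2 * π - y)
      ⟨by linarith [hx.1.2], by linarith [hx.1.1]⟩ ⟨by linarith [hy.1.2], by linarith [hy.1.1]⟩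
      (by simpa [cos_two_pi_sub] using hxy)
    linarith
  refine le_trans (encard_le_encard fun x hx => ?_) ((encard_union_le _ _).trans (add_le_add a1 a2))
  exact (split_arcs hx.1 hx.2.1).imp (fun h => And.intro h hx.2.2) (fun h => And.intro h hx.2.2)

lemma sol_le_a (e0 : 0 < e) (e1 : e < 1) : (Sol e 0 b R).encard ≤ 6 := by
  open Polynomial in
  set p : ℝ[X] := C (e ^ 2) * (1 - C e * X) ^ 2 * ((1 - C e * X) ^ 2 - C (b ^ 2) * (1 - X ^ 2))
    - C (R ^ 2) * (C e * (1 - C e * X) - C (b ^ 2) * X) ^ 2 with hp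
  have hev : ∀ t, p.eval t = e ^ 2 * (1 - e * t) ^ 2 * ((1 - e * t) ^ 2 - b ^ 2 * (1 - t ^ 2))
      - R ^ 2 * (e * (1 - e * t) - b ^ 2 * t) ^ 2 := by intro t; simp [hp]
  have hc4 : p.coeff 4 = e ^ 4 * (e ^ 2 + b ^ 2) := by
    have : p = Polynomial.C (e ^ 4 * (e ^ 2 + b ^ 2)) * Polynomial.X ^ 4 +
        (Polynomial.C (-2 * e ^ 3 * (e ^ 2 + b ^ 2) - 2 * e ^ 5) * Polynomial.X ^ 3 +
        Polynomial.C (e ^ 2 * (e ^ 2 + b ^ 2) + 4 * e ^ 4 + e ^ 4 * (1 - b ^ 2)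
          - R ^ 2 * (e ^ 2 + b ^ 2) ^ 2) * Polynomial.X ^ 2 +
        Polynomial.C (-2 * e ^ 3 - 2 * e ^ 3 * (1 - b ^ 2) + 2 * R ^ 2 * e * (e ^ 2 + b ^ 2))
          * Polynomial.X + Polynomial.C (e ^ 2 * (1 - b ^ 2) - R ^ 2 * e ^ 2)) := by
      apply Polynomial.funext
      intro t
      rw [hev]; simp; ring
    rw [this]
    simp only [Polynomial.coeff_add, Polynomial.coeff_C_mul, Polynomial.coeff_X_pow,
      Polynomial.coeff_X, Polynomial.coeff_C]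
    simp
  have hd : p.natDegree ≤ 4 := by rw [hp]; compute_degree
  have hpos : 0 < p.coeff 4 := by rw [hc4]; positivity
  have hd' : p.natDegree = 4 := Polynomial.natDegree_eq_of_le_of_coeff_ne_zero hd hpos.ne'
  have hp0 : p ≠ 0 := by rintro h; simp [h] at hpos
  have hT := Polynomial.tendsto_atTop_of_leadingCoeff_nonneg p
    (by rw [Polynomial.degree_eq_natDegree hp0, hd']; norm_num)
    (by rw [Polynomial.leadingCoeff, hd']; exact hpos.le)
  obtain ⟨M, hM1, hM2⟩ := ((hT.eventually_ge_atTop 0).and (Filter.eventually_ge_atTop (1 / e))).exists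
  have hneg : p.eval (1 / e) ≤ 0 := by
    rw [hev, mul_one_div_cancel e0.ne']
    simp only [sub_self]
    nlinarith [mul_nonneg (sq_nonneg R) (sq_nonneg (e * 0 - b ^ 2 * (1 / e)))]
  obtain ⟨t0, ht0, ht0'⟩ := intermediate_value_Icc hM2 p.continuous.continuousOn ⟨hneg, hM1⟩
  have he1 : 1 < 1 / e := by rw [lt_div_iff₀ e0]; linarith
  have hroots := roots_encard p hp0 hd
  have h3 : {c : ℝ | -1 ≤ c ∧ p.eval (-c) = 0}.encard ≤ (3 : ℕ) := by
    have h4 : {c : ℝ | -1 ≤ c ∧ p.eval (-c) = 0}.encard ≤ ({x | p.eval x = 0} \ {t0}).encard :=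
      encard_le_encard_of_injOn (f := fun c => -c)
        (fun c hc => ⟨hc.2, fun h => by
          have : -c = t0 := h
          linarith [hc.1, ht0.1]⟩) (neg_injective.injOn)
    have h5 := encard_sdiff_singleton_add_one (s := {x | p.eval x = 0}) ht0'
    refine h4.trans ?_
    rw [← h5, show ((4 : ℕ) : ℕ∞) = (3 : ℕ) + 1 by norm_num] at hroots
    exact (ENat.add_le_add_iff_right ENat.one_ne_top).1 hroots
  refine le_trans (encard_le_encard fun x hx => ?_) ((cos_two_to_one h3).trans (by norm_num))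
  refine ⟨hx.1, hx.2.1, neg_one_le_cos x, ?_⟩
  have h := hx.2.2
  simp only [Q1r, P1r, Qr, Q1c, P1c, Qc] at h
  rw [hev]
  have hs := hx.2.1
  apply mul_left_cancel₀ (pow_ne_zero 2 hs)
  linear_combination (-1 / 4) * h +
    (sin x ^ 2 * e ^ 2 * (1 + e * cos x) ^ 2 * b ^ 2) * (sin_sq_add_cos_sq x)

end Pool.Agent.MP_4e5648_mp.H15
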