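import Pool.Agent.MP_4e5648_mp.H15.Count2

set_option autoImplicit false

namespace Pool.Agent.MP_4e5648_mp.H15

open Set Real

variable {e α b R x₁ x₂ y₁ y₂ : ℝ}

/-- critical triples: unit vector `(u, v)` on the circle and eccentric anomaly `E` -/
def Crit (e R x₁ x₂ y₁ y₂ : ℝ) : Set ((ℝ × ℝ) × ℝ) :=
  {p | p.2 ∈ Ico 0 (2 * π) ∧ p.1.1 ^ 2 + p.1.2 ^ 2 = 1 ∧
    (y₁ * (e + cos p.2) + y₂ * sin p.2) * p.1.1 = (x₁ * (e + cos p.2) + x₂ * sin p.2) * p.1.2 ∧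
    R * ((-x₁ * sin p.2 + x₂ * cos p.2) * p.1.1 + (-y₁ * sin p.2 + y₂ * cos p.2) * p.1.2)
      = -(1 + e * cos p.2) * (e * sin p.2)}

lemma sin_zero_le : {x | x ∈ Ico 0 (2 * π) ∧ sin x = 0}.encard ≤ 2 :=
  trig1 (f := sin) 0 0 1 (fun x => by ring) (x0 := π / 2) (by simp)

section nondeg
variable (h1 : x₁ ^ 2 + y₁ ^ 2 + α ^ 2 = 1) (h2 : x₂ ^ 2 + y₂ ^ 2 + b ^ 2 = 1 - e ^ 2)
  (h3 : x₁ * x₂ + y₁ * y₂ + α * b = 0)

/-- signed length of the projection of the ellipse point -/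
noncomputable def lam (e x₁ x₂ y₁ y₂ : ℝ) (p : (ℝ × ℝ) × ℝ) : ℝ :=
  (x₁ * (e + cos p.2) + x₂ * sin p.2) * p.1.1 + (y₁ * (e + cos p.2) + y₂ * sin p.2) * p.1.2

include h1 h2 h3 in
lemma lam_spec {p : (ℝ × ℝ) × ℝ} (hp : p ∈ Crit e R x₁ x₂ y₁ y₂) :
    lam e x₁ x₂ y₁ y₂ p ^ 2 = Qr e α b p.2 ∧
    R * Q1r e α b p.2 = lam e x₁ x₂ y₁ y₂ p * P1r e p.2 ∧
    lam e x₁ x₂ y₁ y₂ p * p.1.1 = x₁ * (e + cos p.2) + x₂ * sin p.2 ∧
    lam e x₁ x₂ y₁ y₂ p * p.1.2 = y₁ * (e + cos p.2) + y₂ * sin p.2 := by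
  obtain ⟨⟨u, v⟩, E⟩ := p
  obtain ⟨-, a1, a2, a3⟩ := hp
  simp only at a1 a2 a3 ⊢
  have cs := sin_sq_add_cos_sq E
  set c := cos E
  set s := sin E
  have b1 : lam e x₁ x₂ y₁ y₂ ((u, v), E) * u = x₁ * (e + c) + x₂ * s := by
    simp only [lam]
    linear_combination (x₁ * (e + c) + x₂ * s) * a1 + v * a2
  have b2 : lam e x₁ x₂ y₁ y₂ ((u, v), E) * v = y₁ * (e + c) + y₂ * s := by
    simp only [lam]
    linear_combination (y₁ * (e + c) + y₂ * s) * a1 - u * a2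
  set l := lam e x₁ x₂ y₁ y₂ ((u, v), E)
  refine ⟨?_, ?_, b1, b2⟩
  · simp only [Qr, Qc]
    linear_combination (-l ^ 2) * a1 + (l * u + (x₁ * (e + c) + x₂ * s)) * b1
      + (l * v + (y₁ * (e + c) + y₂ * s)) * b2 + (e + c) ^ 2 * h1 + s ^ 2 * h2
      + 2 * (e + c) * s * h3 + (1 - e ^ 2) * cs
  · simp only [Q1r, Q1c, P1r, P1c]
    linear_combination (2 * l) * a3 - (2 * R * (-x₁ * s + x₂ * c)) * b1
      - (2 * R * (-y₁ * s + y₂ * c)) * b2 + (2 * R * (e + c) * s) * h1 - (2 * R * s * c) * h2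
      - (2 * R * ((e + c) * c - s ^ 2)) * h3

include h1 h2 h3 in
lemma crit_ext (hQ : ∀ x, 0 < Qr e α b x) {p q : (ℝ × ℝ) × ℝ} (hp : p ∈ Crit e R x₁ x₂ y₁ y₂)
    (hq : q ∈ Crit e R x₁ x₂ y₁ y₂) (h : p.2 = q.2)
    (hl : lam e x₁ x₂ y₁ y₂ p = lam e x₁ x₂ y₁ y₂ q) : p = q := by
  obtain ⟨a1, -, a3, a4⟩ := lam_spec h1 h2 h3 hp
  obtain ⟨-, -, b3, b4⟩ := lam_spec h1 h2 h3 hq
  have h0 : lam e x₁ x₂ y₁ y₂ p ≠ 0 := by
    intro h0; rw [h0] at a1; have := hQ p.2; simp [← a1] at this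
  rw [← hl, ← h] at b3 b4
  exact Prod.ext (Prod.ext (mul_left_cancel₀ h0 (a3.trans b3.symm))
    (mul_left_cancel₀ h0 (a4.trans b4.symm))) h

include h1 h2 h3 in
lemma crit_off (e0 : 0 < e) (e1 : e < 1) (hQ : ∀ x, 0 < Qr e α b x) :
    {p | p ∈ Crit e R x₁ x₂ y₁ y₂ ∧ sin p.2 ≠ 0}.encard ≤ (Sol e α b R).encard := by
  refine encard_le_encard_of_injOn (f := Prod.snd) (fun p hp => ⟨hp.1.1, hp.2, ?_⟩) ?_
  · obtain ⟨a1, a2, -⟩ := lam_spec h1 h2 h3 hp.1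
    rw [a2, ← a1]; ring
  · intro p hp q hq h
    refine crit_ext h1 h2 h3 hQ hp.1 hq.1 h ?_
    have a2 := (lam_spec h1 h2 h3 hp.1).2.1
    have b2 := (lam_spec h1 h2 h3 hq.1).2.1
    rw [← h] at b2
    exact mul_right_cancel₀ (P1r_ne e0 e1 hp.2) (a2.symm.trans b2)

include h1 h2 h3 in
lemma crit_on (hQ : ∀ x, 0 < Qr e α b x) :
    {p | p ∈ Crit e R x₁ x₂ y₁ y₂ ∧ sin p.2 = 0}.encard ≤ 4 := by
  have key : ∀ σ : ℝ, σ ^ 2 = 1 → {p | (p ∈ Crit e R x₁ x₂ y₁ y₂ ∧ sin p.2 = 0) ∧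
      0 ≤ σ * lam e x₁ x₂ y₁ y₂ p}.encard ≤ 2 := by
    intro σ hσ
    refine le_trans (encard_le_encard_of_injOn (f := Prod.snd)
      (fun p hp => And.intro hp.1.1.1 hp.1.2) ?_) sin_zero_le
    intro p hp q hq h
    refine crit_ext h1 h2 h3 hQ hp.1.1 hq.1.1 h ?_
    have a2 := (lam_spec h1 h2 h3 hp.1.1).1
    have b2 := (lam_spec h1 h2 h3 hq.1.1).1
    rw [← h, ← a2] at b2
    have h0 : σ ≠ 0 := by rintro rfl; simp at hσ
    refine mul_left_cancel₀ h0 ((pow_left_inj₀ hp.2 hq.2 two_ne_zero).1 ?_)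
    rw [mul_pow, mul_pow, b2]
  refine le_trans (encard_le_encard fun p hp => ?_) ((encard_union_le _ _).trans
    ((add_le_add (key 1 (by norm_num)) (key (-1) (by norm_num))).trans (by norm_num)))
  rcases le_total 0 (lam e x₁ x₂ y₁ y₂ p) with h | h
  · exact Or.inl ⟨hp, by linarith⟩
  · exact Or.inr ⟨hp, by linarith⟩

include h1 h2 h3 in
lemma crit_nondeg (e0 : 0 < e) (e1 : e < 1) (hR : 0 < R)
    (hbb : b ^ 2 < (1 - e ^ 2) * (1 - α ^ 2)) : (Crit e R x₁ x₂ y₁ y₂).encard ≤ 10 := by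
  have hQ : ∀ x, 0 < Qr e α b x := fun x => Qc_pos e0 e1 hbb (cos_sq_add_sin_sq x)
  have a1 := crit_off (R := R) h1 h2 h3 e0 e1 hQ
  have a2 := crit_on (R := R) h1 h2 h3 hQ
  have split : ∀ {n : ℕ∞}, (Sol e α b R).encard ≤ 6 → (Crit e R x₁ x₂ y₁ y₂).encard ≤ 10 := by
    intro _ h6
    refine le_trans (encard_le_encard fun p hp => ?_) ((encard_union_le _ _).trans
      ((add_le_add (a1.trans h6) a2).trans (by norm_num)))
    by_cases h : sin p.2 = 0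
    · exact Or.inr ⟨hp, h⟩
    · exact Or.inl ⟨hp, h⟩
  by_cases hα : α = 0
  · subst hα; exact split (n := 0) (sol_le_a e0 e1)
  by_cases hb : b = 0
  · subst hb
    refine split (n := 0) (sol_le_b e0 e1 ?_ hR)
    have he : 0 < 1 - e ^ 2 := by nlinarith
    by_contra hn
    nlinarith
  refine le_trans (encard_le_encard fun p hp => ?_) (a1.trans (Gen.sol_le ⟨e0, e1, hα, hb, hbb⟩ hR))
  refine ⟨hp, fun hs => ?_⟩
  have a2 := (lam_spec h1 h2 h3 hp).2.1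
  have cs := sin_sq_add_cos_sq p.2
  simp only [Q1r, Q1c, P1r, P1c, hs] at a2 cs
  have hc : cos p.2 ≠ 0 := by intro h; simp [h] at cs
  have hc' : e + cos p.2 ≠ 0 := by
    intro h
    have : cos p.2 = -e := by linarith
    rw [this] at cs; nlinarith
  have : R * α * b * (e + cos p.2) * cos p.2 ≠ 0 := by have := hR.ne'; positivity
  apply this
  linear_combination (-1 / 2) * a2

end nondeg

lemma two_sol {K L : ℝ} (hK : e ^ 2 < K) :
    {x | x ∈ Ico 0 (2 * π) ∧ sin x * (K + e ^ 2 * cos x) = L * cos x}.encard ≤ 2 := by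
  have hpos : ∀ x, 0 < K + e ^ 2 * cos x := fun x => by nlinarith [neg_one_le_cos x]
  have key : ∀ σ : ℝ, σ ^ 2 = 1 → {x | (x ∈ Ico 0 (2 * π) ∧
      sin x * (K + e ^ 2 * cos x) = L * cos x) ∧ 0 ≤ σ * cos x}.encard ≤ 1 := by
    intro σ hσ
    rw [encard_le_one_iff]
    have lt : ∀ x y : ℝ, sin x * (K + e ^ 2 * cos x) = L * cos x → 0 ≤ σ * cos x →
        sin y * (K + e ^ 2 * cos y) = L * cos y → ¬ σ * cos x < σ * cos y := by
      intro x y hx hx' hy hlt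
      have c1 := sin_sq_add_cos_sq x
      have c2 := sin_sq_add_cos_sq y
      have hs : sin y ^ 2 < sin x ^ 2 := by
        have : (σ * cos x) ^ 2 < (σ * cos y) ^ 2 := by gcongr
        rw [mul_pow, mul_pow, hσ] at this
        linarith
      have hA : σ * cos x * (K + e ^ 2 * cos y) < σ * cos y * (K + e ^ 2 * cos x) := by
        have : 0 < K := by nlinarith
        nlinarith
      have hB : 0 ≤ σ * cos x * (K + e ^ 2 * cos y) := mul_nonneg hx' (hpos y).le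
      have hC : (σ * cos x * (K + e ^ 2 * cos y)) ^ 2 < (σ * cos y * (K + e ^ 2 * cos x)) ^ 2 := by
        gcongr
      have hD : sin y ^ 2 * (σ * cos x * (K + e ^ 2 * cos y)) ^ 2
          < sin x ^ 2 * (σ * cos y * (K + e ^ 2 * cos x)) ^ 2 :=
        mul_lt_mul'' hs hC (sq_nonneg _) (sq_nonneg _)
      have hE : sin y * (σ * cos x * (K + e ^ 2 * cos y))
          = sin x * (σ * cos y * (K + e ^ 2 * cos x)) := by
        linear_combination (σ * cos x) * hy - (σ * cos y) * hx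
      rw [← mul_pow, ← mul_pow, hE] at hD
      exact lt_irrefl _ hD
    intro x y hx hy
    have h0 : σ ≠ 0 := by rintro rfl; simp at hσ
    have hc : cos x = cos y := mul_left_cancel₀ h0 (le_antisymm
      (not_lt.1 (lt y x hy.1.2 hy.2 hx.1.2)) (not_lt.1 (lt x y hx.1.2 hx.2 hy.1.2)))
    have hs : sin x = sin y := by
      refine mul_right_cancel₀ (hpos x).ne' ?_
      rw [hx.1.2, hc, hy.1.2]
    refine ex_injOn hx.1.1 hy.1.1 ?_
    simp only [ex_eq, ← Complex.ofReal_cos, ← Complex.ofReal_sin, hc, hs]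
  refine le_trans (encard_le_encard fun p hp => ?_) ((encard_union_le _ _).trans
    ((add_le_add (key 1 (by norm_num)) (key (-1) (by norm_num))).trans (by norm_num)))
  rcases le_total 0 (cos p) with h | h
  · exact Or.inl ⟨hp, by linarith⟩
  · exact Or.inr ⟨hp, by linarith⟩

lemma four_sol {K L : ℝ} (e0 : 0 < e) :
    {x | x ∈ Ico 0 (2 * π) ∧ sin x * (K + e ^ 2 * cos x) = L * cos x}.encard ≤ 4 := by
  set f : ℝ → ℝ := fun x => sin x * (K + e ^ 2 * cos x) - L * cos x with hf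
  have : ∃ x0, f x0 ≠ 0 := by
    by_contra hn
    push Not at hn
    have a1 := hn 0
    have a2 := hn (π / 2)
    have a3 := hn (π / 4)
    simp [hf] at a1 a2
    simp [hf, a1, a2, e0.ne'] at a3
  obtain ⟨x0, h0⟩ := this
  have := trig2 (f := f) 0 (-L) K 0 (e ^ 2) 0 (fun x => by simp only [hf]; ring) h0
  simpa only [hf, sub_eq_zero] using this

lemma crit_deg {β γ m₁ m₂ : ℝ} (e0 : 0 < e) (e1 : e < 1) (hR : 0 < R) (hβ : β ^ 2 = 1 - e ^ 2)
    (hγ : γ ^ 2 + α ^ 2 = 1) (hm : m₁ ^ 2 + m₂ ^ 2 = 1) :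
    (Crit e R (γ * m₁) (-α * β * m₁) (γ * m₂) (-α * β * m₂)).encard ≤ 10 := by
  set C := Crit e R (γ * m₁) (-α * β * m₁) (γ * m₂) (-α * β * m₂) with hC
  set U : (ℝ × ℝ) × ℝ → ℝ := fun p => m₁ * p.1.1 + m₂ * p.1.2 with hU
  set V : (ℝ × ℝ) × ℝ → ℝ := fun p => m₂ * p.1.1 - m₁ * p.1.2 with hV
  set ξ : ℝ → ℝ := fun x => γ * (e + cos x) - α * β * sin x with hξ
  set η : ℝ → ℝ := fun x => γ * sin x + α * β * cos x with hη
  have he : 0 < 1 - e ^ 2 := by nlinarith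
  have spec : ∀ p ∈ C, U p ^ 2 + V p ^ 2 = 1 ∧ ξ p.2 * V p = 0 ∧
      R * η p.2 * U p = (1 + e * cos p.2) * (e * sin p.2) := by
    rintro p ⟨-, a1, a2, a3⟩
    simp only [hU, hV, hξ, hη]
    exact ⟨by linear_combination (p.1.1 ^ 2 + p.1.2 ^ 2) * hm + a1, by linear_combination a2,
      by linear_combination -a3⟩
  have ext : ∀ p q : (ℝ × ℝ) × ℝ, p.2 = q.2 → U p = U q → V p = V q → p = q := by
    intro p q h a b
    simp only [hU, hV] at a b
    refine Prod.ext (Prod.ext ?_ ?_) h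
    · linear_combination m₁ * a + m₂ * b - (p.1.1 - q.1.1) * hm
    · linear_combination m₂ * a - m₁ * b - (p.1.2 - q.1.2) * hm
  have hξη : ∀ x, ξ x = 0 → η x ≠ 0 := by
    intro x a b
    simp only [hξ, hη] at a b
    have : 1 - e ^ 2 = 0 := by
      linear_combination (γ * cos x - α * β * sin x - γ * e) * a + (γ * sin x + α * β * cos x) * b
        - (γ ^ 2 + α ^ 2 * β ^ 2) * sin_sq_add_cos_sq x - α ^ 2 * hβ - (1 - e ^ 2) * hγ
    linarith
  have hZ : {x | x ∈ Ico 0 (2 * π) ∧ ξ x = 0}.encard ≤ 2 := by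
    have : ∃ x0, ξ x0 ≠ 0 := by
      by_contra hn
      push Not at hn
      have a1 := hn 0
      have a2 := hξη 0 a1
      have a3 := hn (π / 2)
      simp only [hξ, hη, sin_zero, cos_zero, sin_pi_div_two, cos_pi_div_two] at a1 a2 a3
      have : γ = 0 := by
        have : γ * (e + 1) = 0 := by linarith
        exact (mul_eq_zero.1 this).resolve_right (by linarith)
      apply a2
      rw [this] at a3 ⊢
      linarith
    obtain ⟨x0, h0⟩ := this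
    exact trig1 (f := ξ) (γ * e) γ (-α * β) (fun x => by simp only [hξ]; ring) h0
  have kB : ∀ σ : ℝ, σ ^ 2 = 1 → {p | p ∈ C ∧ 0 < σ * V p}.encard ≤ 2 := by
    intro σ hσ
    have h0 : σ ≠ 0 := by rintro rfl; simp at hσ
    have hz : ∀ p ∈ {p | p ∈ C ∧ 0 < σ * V p}, ξ p.2 = 0 := fun p hp =>
      (mul_eq_zero.1 (spec p hp.1).2.1).resolve_right fun h => by simpa [h] using hp.2
    refine le_trans (encard_le_encard_of_injOn (f := Prod.snd)
      (fun p hp => And.intro hp.1.1 (hz p hp)) ?_) hZ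
    intro p hp q hq h
    obtain ⟨a1, -, a3⟩ := spec p hp.1
    obtain ⟨b1, -, b3⟩ := spec q hq.1
    rw [← h] at b3
    have hu : U p = U q :=
      mul_left_cancel₀ (mul_ne_zero hR.ne' (hξη _ (hz p hp))) (a3.trans b3.symm)
    refine ext p q h hu (mul_left_cancel₀ h0 ((pow_left_inj₀ hp.2.le hq.2.le two_ne_zero).1 ?_))
    rw [mul_pow, mul_pow, hσ]
    rw [hu] at a1
    linarith
  have kA : ∀ σ : ℝ, {p | p ∈ C ∧ V p = 0 ∧ U p = σ}.encard ≤ {x | x ∈ Ico 0 (2 * π) ∧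
      sin x * (e - σ * R * γ + e ^ 2 * cos x) = σ * R * α * β * cos x}.encard := by
    intro σ
    refine encard_le_encard_of_injOn (f := Prod.snd) (fun p hp => And.intro hp.1.1 ?_) ?_
    · have a3 := (spec p hp.1).2.2
      rw [hp.2.2] at a3
      simp only [hη] at a3
      linear_combination -a3
    · exact fun p hp q hq h => ext p q h (hp.2.2.trans hq.2.2.symm) (hp.2.1.trans hq.2.1.symm)
  have kA' : {p | p ∈ C ∧ V p = 0 ∧ U p = 1}.encard + {p | p ∈ C ∧ V p = 0 ∧ U p = -1}.encard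
      ≤ 6 := by
    rcases le_total 0 γ with h | h
    · refine (add_le_add ((kA 1).trans (four_sol e0)) ((kA (-1)).trans (two_sol ?_))).trans
        (by norm_num)
      nlinarith [mul_nonneg hR.le h]
    · refine (add_le_add ((kA 1).trans (two_sol ?_)) ((kA (-1)).trans (four_sol e0))).trans
        (by norm_num)
      nlinarith [mul_nonneg hR.le (neg_nonneg.2 h)]
  refine le_trans (encard_le_encard fun p hp => ?_) ((encard_union_le _ _).trans
    ((add_le_add ((encard_union_le _ _).trans kA') ((encard_union_le _ _).trans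
      (add_le_add (kB 1 (by norm_num)) (kB (-1) (by norm_num))))).trans (by norm_num)))
  rcases lt_trichotomy (V p) 0 with h | h | h
  · exact Or.inr (Or.inr ⟨hp, by linarith⟩)
  · have a1 := (spec p hp).1
    rw [h, zero_pow two_ne_zero, add_zero, sq_eq_one_iff] at a1
    exact Or.inl (a1.imp (fun a => And.intro hp (And.intro h a)) fun a => And.intro hp (And.intro h a))
  · exact Or.inr (Or.inl ⟨hp, by linarith⟩)

theorem crit_le {β γ x₂ y₂ : ℝ} (e0 : 0 < e) (e1 : e < 1) (hR : 0 < R) (hβ : β ^ 2 = 1 - e ^ 2)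
    (h1 : x₁ ^ 2 + y₁ ^ 2 + α ^ 2 = 1) (h2 : x₂ ^ 2 + y₂ ^ 2 + γ ^ 2 = 1)
    (h3 : x₁ * x₂ + y₁ * y₂ + α * γ = 0) : (Crit e R x₁ (β * x₂) y₁ (β * y₂)).encard ≤ 10 := by
  have he : 0 < 1 - e ^ 2 := by nlinarith
  have hD : (x₁ * y₂ - x₂ * y₁) ^ 2 = 1 - α ^ 2 - γ ^ 2 := by
    linear_combination (x₂ ^ 2 + y₂ ^ 2) * h1 + (1 - α ^ 2) * h2
      - (x₁ * x₂ + y₁ * y₂ - α * γ) * h3
  by_cases hs : γ ^ 2 + α ^ 2 = 1
  · have z : (α * x₁ + γ * x₂) ^ 2 + (α * y₁ + γ * y₂) ^ 2 = 0 := by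
      linear_combination α ^ 2 * h1 + γ ^ 2 * h2 + 2 * α * γ * h3 - (α ^ 2 + γ ^ 2) * hs
    have z1 : α * x₁ + γ * x₂ = 0 := by nlinarith [sq_nonneg (α * x₁ + γ * x₂), sq_nonneg (α * y₁ + γ * y₂)]
    have z2 : α * y₁ + γ * y₂ = 0 := by nlinarith [sq_nonneg (α * x₁ + γ * x₂), sq_nonneg (α * y₁ + γ * y₂)]
    have := crit_deg (α := α) (m₁ := γ * x₁ - α * x₂) (m₂ := γ * y₁ - α * y₂) e0 e1 hR hβ hs
      (by linear_combination γ ^ 2 * h1 + α ^ 2 * h2 - 2 * α * γ * h3 + hs)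
    convert this using 3
    · linear_combination α * z1 - x₁ * hs
    · linear_combination β * γ * z1 - β * x₂ * hs
    · linear_combination α * z2 - y₁ * hs
    · linear_combination β * γ * z2 - β * y₂ * hs
  · refine crit_nondeg (α := α) (b := β * γ) h1 (by linear_combination β ^ 2 * h2 + hβ)
      (by linear_combination β * h3) e0 e1 hR ?_
    have : γ ^ 2 < 1 - α ^ 2 := by
      refine lt_of_le_of_ne (by nlinarith [sq_nonneg (x₁ * y₂ - x₂ * y₁)]) fun h => hs ?_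
      linarith
    rw [mul_pow, hβ]
    exact mul_lt_mul_of_pos_left this he

end Pool.Agent.MP_4e5648_mp.H15
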