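import Pool.Agent.MP_4e5648_mp.H15.Wind

set_option autoImplicit false

namespace Pool.Agent.MP_4e5648_mp.H15

open Complex Filter Topology Set
open scoped Real

lemma slit_star {ξ : ℂ} (h : ξ ∈ slitPlane) {t : ℝ} (h0 : 0 ≤ t) (h1 : t ≤ 1) :
    (1 - t : ℂ) + t * ξ ≠ 0 := by
  intro hz
  have hre := congrArg Complex.re hz
  have him := congrArg Complex.im hz
  simp at hre him
  rcases h with h | h
  · rcases h0.eq_or_lt with rfl | ht
    · simp at hre
    · nlinarith [mul_pos ht h]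
  · rcases him with rfl | him
    · simp at hre
    · exact h him

theorem index_ann {ρ₁ ρ₂ : ℝ} (h0 : 0 ≤ ρ₁) (h12 : ρ₁ ≤ ρ₂) (k : ℂ → ℤ) (Z : Finset ℂ) :
    ∀ (F : ℂ → ℂ) (m n : ℤ), (∀ w ∈ Z, ρ₁ < ‖w‖ ∧ ‖w‖ < ρ₂) →
      ContinuousOn F (Ann ρ₁ ρ₂ \ Z) → (∀ w ∈ Ann ρ₁ ρ₂ \ Z, F w ≠ 0) →
      (∀ w ∈ Z, LocIdx F w (k w)) →
      HasWind (fun x : ℝ => F (ρ₁ * exp (x * I))) m →
      HasWind (fun x : ℝ => F (ρ₂ * exp (x * I))) n → n - m = ∑ w ∈ Z, k w := by
  classical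
  induction Z using Finset.induction_on with
  | empty =>
    intro F m n _ hc hz _ hm hn
    have := wind_eq_of_ann h0 h12 (by simpa using hc) (by simpa using hz) hm hn
    simp [this]
  | insert w₀ Z hw₀ ih =>
    intro F m n hZ hc hz hloc hm hn
    obtain ⟨γ, δ, hγ, hδ, hsec⟩ := hloc w₀ (Finset.mem_insert_self _ _)
    obtain ⟨hw1, hw2⟩ := hZ w₀ (Finset.mem_insert_self _ _)
    set G : ℂ → ℂ := fun w => F w / (w - w₀) ^ k w₀ / γ with hG
    have hev : ∀ᶠ w in 𝓝 w₀, (w ≠ w₀ → Sector δ (G w)) ∧ (ρ₁ < ‖w‖ ∧ ‖w‖ < ρ₂) ∧ w ∉ Z := by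
      refine (eventually_nhdsWithin_iff.1 hsec).and (Eventually.and (Eventually.and ?_ ?_) ?_)
      · exact continuous_norm.continuousAt.eventually (lt_mem_nhds hw1)
      · exact continuous_norm.continuousAt.eventually (gt_mem_nhds hw2)
      · exact Z.finite_toSet.isClosed.isOpen_compl.mem_nhds hw₀
    obtain ⟨r₀, hr₀, hball⟩ := Metric.eventually_nhds_iff.1 hev
    set r := r₀ / 2 with hr
    have hrpos : 0 < r := by positivity
    have hball' : ∀ w, ‖w - w₀‖ ≤ r →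
        (w ≠ w₀ → Sector δ (G w)) ∧ (ρ₁ < ‖w‖ ∧ ‖w‖ < ρ₂) ∧ w ∉ Z :=
      fun w hw => hball (by rw [dist_eq_norm]; linarith)
    set χ : ℂ → ℝ := fun w => max 0 (min 1 (2 * ‖w - w₀‖ / r - 1)) with hχ
    have hχc : Continuous χ := by fun_prop
    have hχ0 : ∀ w, 0 ≤ χ w := fun w => le_max_left _ _
    have hχ1 : ∀ w, χ w ≤ 1 := fun w => max_le zero_le_one (min_le_left _ _)
    have hχout : ∀ w, r ≤ ‖w - w₀‖ → χ w = 1 := by
      intro w hw
      have : 1 ≤ 2 * ‖w - w₀‖ / r - 1 := by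
        rw [le_sub_iff_add_le, le_div_iff₀ hrpos]; linarith
      simp [hχ, min_eq_left this]
    have hχin : ∀ w, ‖w - w₀‖ < r / 2 → χ w = 0 := by
      intro w hw
      have : 2 * ‖w - w₀‖ / r - 1 ≤ 0 := by
        rw [sub_nonpos, div_le_one hrpos]; linarith
      exact max_eq_left ((min_le_right _ _).trans this)
    set G' : ℂ → ℂ := fun w => (1 - χ w : ℂ) + χ w * G w with hG'
    have hout : ∀ w, r ≤ ‖w - w₀‖ → G' w = G w := by
      intro w hw; simp [hG', hχout w hw]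
    have hGc : ContinuousOn G (Ann ρ₁ ρ₂ \ (insert w₀ Z : Finset ℂ)) := by
      refine (hc.div (ContinuousOn.zpow₀ (by fun_prop) _ fun w hw => Or.inl ?_)
        fun w hw => zpow_ne_zero _ ?_).div_const γ
      all_goals
        refine sub_ne_zero.2 fun h => hw.2 ?_
        simp [h]
    have hGz : ∀ w ∈ Ann ρ₁ ρ₂ \ (insert w₀ Z : Finset ℂ), G w ≠ 0 := by
      intro w hw
      refine div_ne_zero (div_ne_zero (hz w hw) (zpow_ne_zero _ ?_)) hγ
      refine sub_ne_zero.2 fun h => hw.2 ?_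
      simp [h]
    have hmem : ∀ w ∈ Ann ρ₁ ρ₂ \ (Z : Set ℂ), w ≠ w₀ →
        w ∈ Ann ρ₁ ρ₂ \ (insert w₀ Z : Finset ℂ) := by
      intro w hw hne
      refine ⟨hw.1, ?_⟩
      simp only [Finset.coe_insert, mem_insert_iff, not_or]
      exact ⟨hne, hw.2⟩
    have hfar : ∀ ρ : ℝ, 0 ≤ ρ → (ρ = ρ₁ ∨ ρ = ρ₂) → ∀ x : ℝ, r ≤ ‖ρ * exp (x * I) - w₀‖ := by
      intro ρ hρ hρ' x
      by_contra hlt
      have := (hball' _ (not_le.1 hlt).le).2.1
      rw [norm_mul, norm_exp_ofReal_mul_I, norm_real, Real.norm_of_nonneg hρ, mul_one] at this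
      rcases hρ' with rfl | rfl
      · exact lt_irrefl _ this.1
      · exact lt_irrefl _ this.2
    have key := ih G' m (n - k w₀) (fun w hw => hZ w (Finset.mem_insert_of_mem hw)) ?_ ?_ ?_ ?_ ?_
    · rw [Finset.sum_insert hw₀]; linarith
    · intro w hw
      by_cases hne : w = w₀
      · subst hne
        refine ContinuousAt.continuousWithinAt ?_
        refine (continuousAt_const (y := (1 : ℂ))).congr ?_
        filter_upwards [Metric.ball_mem_nhds w (show 0 < r / 2 by positivity)] with z hz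
        rw [Metric.mem_ball, dist_eq_norm] at hz
        simp [hG', hχin z hz]
      · have h1 : ContinuousWithinAt G (Ann ρ₁ ρ₂ \ (Z : Set ℂ)) w := by
          refine (hGc w (hmem w hw hne)).mono_of_mem_nhdsWithin ?_
          filter_upwards [self_mem_nhdsWithin,
            mem_nhdsWithin_of_mem_nhds (isOpen_ne.mem_nhds hne)] with z hz hz'
          exact hmem z hz hz'
        have h2 : Continuous fun w => (χ w : ℂ) := continuous_ofReal.comp hχc
        exact (continuousWithinAt_const.sub h2.continuousWithinAt).add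
          (h2.continuousWithinAt.mul h1)
    · intro w hw
      by_cases hne : w = w₀
      · subst hne
        simp [hG', hχin w (by simpa using hrpos)]
      · by_cases hr' : r ≤ ‖w - w₀‖
        · rw [hout w hr']; exact hGz w (hmem w hw hne)
        · exact slit_star (((hball' w (not_le.1 hr').le).1 hne).mem_slit hδ) (hχ0 w) (hχ1 w)
    · intro w hw
      have hne : w ≠ w₀ := fun h => hw₀ (h ▸ hw)
      have hr' : r < ‖w - w₀‖ := by
        by_contra h
        exact (hball' w (not_lt.1 h)).2.2 hw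
      have h1 : Tendsto (fun z => ((z - w₀) ^ k w₀)⁻¹ / γ) (𝓝[≠] w)
          (𝓝 (((w - w₀) ^ k w₀)⁻¹ / γ)) := by
        have a1 : Tendsto (fun z => z - w₀) (𝓝[≠] w) (𝓝 (w - w₀)) :=
          (tendsto_id.mono_left nhdsWithin_le_nhds).sub_const w₀
        exact ((a1.zpow₀ (k w₀) (Or.inl (sub_ne_zero.2 hne))).inv₀
          (zpow_ne_zero _ (sub_ne_zero.2 hne))).div_const γ
      have h2 := (hloc w (Finset.mem_insert_of_mem hw)).mul_tendsto h1
        (div_ne_zero (inv_ne_zero (zpow_ne_zero _ (sub_ne_zero.2 hne))) hγ)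
      have h3 : ∀ᶠ z in 𝓝 w, r < ‖z - w₀‖ := by
        have h4 : Continuous fun z : ℂ => ‖z - w₀‖ := by fun_prop
        exact (isOpen_lt continuous_const h4).mem_nhds hr'
      apply LocIdx.congr h2
      filter_upwards [mem_nhdsWithin_of_mem_nhds h3] with z hz
      rw [hout z (le_of_lt hz)]
      simp only [hG]
      ring
    · have := (hm.mul ((hasWind_circle_out h0 hw1).zpow (-k w₀))).mul
        (hasWind_const (inv_ne_zero hγ))
      refine (by simpa using this : HasWind _ m).congr fun x => ?_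
      rw [hout _ (hfar ρ₁ h0 (Or.inl rfl) x), hG]; simp [div_eq_mul_inv]
    · have := (hn.mul ((hasWind_circle_in hw2).zpow (-k w₀))).mul
        (hasWind_const (inv_ne_zero hγ))
      rw [show n + -k w₀ * 1 + 0 = n - k w₀ by ring] at this
      refine this.congr fun x => ?_
      rw [hout _ (hfar ρ₂ (h0.trans h12) (Or.inr rfl) x), hG]; simp [div_eq_mul_inv]

/-- `E ↦ e^{iE}` -/
noncomputable def ex (E : ℂ) : ℂ := exp (E * I)

lemma ex_ne_zero (E : ℂ) : ex E ≠ 0 := exp_ne_zero _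

lemma continuous_ex : Continuous ex := by unfold ex; fun_prop

lemma isOpenMap_ex : IsOpenMap ex :=
  isOpenMap_exp.comp (Homeomorph.mulRight₀ I I_ne_zero).isOpenMap

lemma map_ex (E : ℂ) : map ex (𝓝 E) = 𝓝 (ex E) :=
  isOpenMap_ex.map_nhds_eq continuous_ex.continuousAt

lemma norm_ex (E : ℂ) : ‖ex E‖ = Real.exp (-E.im) := by
  simp [ex, norm_exp]

lemma ex_log {w : ℂ} (hw : w ≠ 0) : ex (-I * log w) = w := by
  have : -I * log w * I = log w := by linear_combination (-log w) * I_mul_I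
  rw [ex, this, exp_log hw]

lemma periodic_of_ex_eq {Ψ : ℂ → ℂ} (hp : Function.Periodic Ψ (2 * π)) {E E' : ℂ}
    (h : ex E = ex E') : Ψ E = Ψ E' := by
  obtain ⟨n, hn⟩ := exp_eq_exp_iff_exists_int.1 h
  have : E = E' + n * (2 * π) := by
    apply mul_right_cancel₀ I_ne_zero
    rw [hn]; ring
  rw [this, hp.int_mul n]

lemma hasDerivAt_ex (E : ℂ) : HasDerivAt ex (ex E * I) E := by
  unfold ex
  simpa using ((hasDerivAt_id E).mul_const I).cexp

lemma LocIdx.push {F : ℂ → ℂ} {E₀ : ℂ} {k : ℤ} (h : LocIdx (fun E => F (ex E)) E₀ k) :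
    LocIdx F (ex E₀) k := by
  have hs : Tendsto (fun E => (E - E₀)⁻¹ * (ex E - ex E₀)) (𝓝[≠] E₀) (𝓝 (ex E₀ * I)) := by
    have := hasDerivAt_iff_tendsto_slope.1 (hasDerivAt_ex E₀)
    refine this.congr fun E => ?_
    simp [slope]
  have hne : ex E₀ * I ≠ 0 := mul_ne_zero (ex_ne_zero _) I_ne_zero
  have hs' := hs.zpow₀ (-k) (Or.inl hne)
  obtain ⟨γ, δ, hγ, hδ, h1⟩ := LocSec.mul_tendsto h hs' (zpow_ne_zero _ hne)
  refine ⟨γ, δ, hγ, hδ, ?_⟩
  rw [eventually_nhdsWithin_iff] at h1 ⊢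
  rw [← map_ex, eventually_map]
  filter_upwards [h1] with E hE hne'
  have hEne : E ≠ E₀ := fun h => hne' (by simp [h])
  have h2 := hE hEne
  have h3 : (E - E₀) ^ k ≠ 0 := zpow_ne_zero _ (sub_ne_zero.2 hEne)
  have h4 : (ex E - ex E₀) ^ k ≠ 0 := zpow_ne_zero _ (sub_ne_zero.2 hne')
  convert h2 using 2
  rw [zpow_neg, mul_zpow, inv_zpow]
  field_simp

theorem index_periodic {Ψ : ℂ → ℂ} (hc : Continuous Ψ) (hp : Function.Periodic Ψ (2 * π))
    {Y : ℝ} (hY : 0 < Y) {m n : ℤ} (htop : HasWind (fun x : ℝ => Ψ (x + Y * I)) m)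
    (hbot : HasWind (fun x : ℝ => Ψ (x - Y * I)) n) (κ : ℂ → ℤ)
    (hloc : ∀ E₀ : ℂ, Ψ E₀ = 0 → ∃ k, κ (ex E₀) ≤ k ∧ LocIdx Ψ E₀ k) :
    ∃ Z : Finset ℂ, (∀ E : ℂ, |E.im| < Y → Ψ E = 0 → ex E ∈ Z) ∧ ∑ w ∈ Z, κ w ≤ n - m := by
  classical
  set F : ℂ → ℂ := fun w => Ψ (-I * log w) with hF
  have hFex : ∀ E, F (ex E) = Ψ E := fun E => periodic_of_ex_eq hp (ex_log (ex_ne_zero E))
  have hFc : ∀ w, w ≠ 0 → ContinuousAt F w := by
    intro w hw
    rw [← ex_log hw, ContinuousAt, ← map_ex, tendsto_map'_iff]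
    have : F ∘ ex = Ψ := funext hFex
    rw [this, hFex]
    exact hc.continuousAt
  have hFloc : ∀ w, w ≠ 0 → F w = 0 → ∃ k, κ w ≤ k ∧ LocIdx F w k := by
    intro w hw h0
    obtain ⟨k, hk, hk'⟩ := hloc _ h0
    rw [ex_log hw] at hk
    refine ⟨k, hk, ?_⟩
    rw [← ex_log hw]
    apply LocIdx.push
    simpa [hFex] using hk'
  set ρ₁ := Real.exp (-Y)
  set ρ₂ := Real.exp Y
  have hρ₁ : 0 < ρ₁ := Real.exp_pos _
  have h12 : ρ₁ ≤ ρ₂ := Real.exp_le_exp.2 (by linarith)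
  have hA0 : ∀ w ∈ Ann ρ₁ ρ₂, w ≠ 0 := fun w hw => norm_pos_iff.1 (hρ₁.trans_le hw.1)
  have hAc : IsCompact (Ann ρ₁ ρ₂) := by
    refine (isCompact_closedBall (0 : ℂ) ρ₂).of_isClosed_subset ?_ fun w hw => by simpa using hw.2
    exact (isClosed_le continuous_const continuous_norm).inter
      (isClosed_le continuous_norm continuous_const)
  set S : Set ℂ := Ann ρ₁ ρ₂ ∩ F ⁻¹' {0} with hS
  have hFon : ContinuousOn F (Ann ρ₁ ρ₂) := fun w hw => (hFc w (hA0 w hw)).continuousWithinAt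
  have hSc : IsCompact S :=
    hAc.of_isClosed_subset (hFon.preimage_isClosed_of_isClosed hAc.isClosed isClosed_singleton)
      inter_subset_left
  have hSf : S.Finite := by
    refine hSc.finite ?_
    rw [isDiscrete_iff_nhdsNE]
    intro w hw
    obtain ⟨k, -, hk⟩ := hFloc w (hA0 w hw.1) hw.2
    rw [inf_principal_eq_bot]
    filter_upwards [hk.eventually_ne] with z hz hz'
    exact hz hz'.2
  have h1 : ∀ x : ℝ, (ρ₁ : ℂ) * exp (x * I) = ex (x + Y * I) := by
    intro x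
    rw [ex, ofReal_exp, ← exp_add]; congr 1; push_cast
    linear_combination (-Y : ℂ) * I_mul_I
  have h2 : ∀ x : ℝ, (ρ₂ : ℂ) * exp (x * I) = ex (x - Y * I) := by
    intro x
    rw [ex, ofReal_exp, ← exp_add]; congr 1
    linear_combination (Y : ℂ) * I_mul_I
  have hm : HasWind (fun x : ℝ => F (ρ₁ * exp (x * I))) m := htop.congr fun x => by rw [h1, hFex]
  have hn : HasWind (fun x : ℝ => F (ρ₂ * exp (x * I))) n := hbot.congr fun x => by rw [h2, hFex]
  have hcirc : ∀ w : ℂ, w = ‖w‖ * exp (arg w * I) := fun w => (norm_mul_exp_arg_mul_I w).symm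
  choose! k hk using hFloc
  have hidx := index_ann hρ₁.le h12 k hSf.toFinset F m n ?_ (hFon.mono sdiff_subset) ?_ ?_ hm hn
  · refine ⟨hSf.toFinset, ?_, ?_⟩
    · intro E hE h0
      rw [Finite.mem_toFinset]
      refine ⟨?_, by simpa [hFex] using h0⟩
      rw [abs_lt] at hE
      constructor <;> rw [norm_ex] <;> apply Real.exp_le_exp.2 <;> linarith [hE.1, hE.2]
    · rw [hidx]
      refine Finset.sum_le_sum fun w hw => ?_
      rw [Finite.mem_toFinset] at hw
      exact (hk w (hA0 w hw.1) hw.2).1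
  · intro w hw
    rw [Finite.mem_toFinset] at hw
    have h0 : F w = 0 := hw.2
    refine ⟨hw.1.1.lt_of_ne fun h => ?_, hw.1.2.lt_of_ne fun h => ?_⟩
    · apply hm.ne_zero (arg w)
      simp only [h]; rw [← hcirc, h0]
    · apply hn.ne_zero (arg w)
      simp only [← h]; rw [← hcirc, h0]
  · intro w hw h0
    exact hw.2 (by simpa [hS] using ⟨hw.1, h0⟩)
  · intro w hw
    rw [Finite.mem_toFinset] at hw
    exact (hk w (hA0 w hw.1) hw.2).2

end Pool.Agent.MP_4e5648_mp.H15
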