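import Pool.Agent.MP_4e5648_mp.H15.RealPt
import Pool.Agent.MP_4e5648_mp.H15.Index

set_option autoImplicit false

namespace Pool.Agent.MP_4e5648_mp.H15

open Complex Filter Topology Set
open scoped Real ComplexConjugate

section polys
variable {K : Type*} [CommRing K] (e α b : K)

def Pc (o c : K) : K := (o + e * c) ^ 2
def Qc (o c s : K) : K := (o + e * c) ^ 2 - (α * (e * o + c) + b * s) ^ 2
def P1c (o c s : K) : K := -2 * (o + e * c) * (e * s)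
def Q1c (o c s : K) : K :=
  -2 * (o + e * c) * (e * s) - 2 * (α * (e * o + c) + b * s) * (-α * s + b * c)
def P2c (c s : K) : K := 2 * (e * s) ^ 2 - 2 * (1 + e * c) * (e * c)
def Q2c (c s : K) : K := 2 * (e * s) ^ 2 - 2 * (1 + e * c) * (e * c) - 2 * (-α * s + b * c) ^ 2
  + 2 * (α * (e + c) + b * s) * (α * c + b * s)
def Wc (c s : K) : K :=
  2 * Qc e α b 1 c s * (P1c e 1 c s * Q2c e α b c s - P2c e c s * Q1c e α b 1 c s)
    - P1c e 1 c s * Q1c e α b 1 c s ^ 2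
end polys

variable (e α b : ℝ)

noncomputable def XX (o c s : ℂ) : ℂ :=
  -I * (Qc (e : ℂ) α b o c s - ‖Qc (e : ℂ) α b o c s‖) * P1c (e : ℂ) o c s
    - ((Pc (e : ℂ) o c).im : ℂ) * Q1c (e : ℂ) α b o c s

noncomputable def Pf (E : ℂ) : ℂ := Pc (e : ℂ) 1 (cos E)
noncomputable def Qf (E : ℂ) : ℂ := Qc (e : ℂ) α b 1 (cos E) (sin E)
noncomputable def P1f (E : ℂ) : ℂ := P1c (e : ℂ) 1 (cos E) (sin E)
noncomputable def Q1f (E : ℂ) : ℂ := Q1c (e : ℂ) α b 1 (cos E) (sin E)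
noncomputable def P2f (E : ℂ) : ℂ := P2c (e : ℂ) (cos E) (sin E)
noncomputable def Q2f (E : ℂ) : ℂ := Q2c (e : ℂ) α b (cos E) (sin E)
noncomputable def Wf (E : ℂ) : ℂ := Wc (e : ℂ) α b (cos E) (sin E)
noncomputable def Xt (E : ℂ) : ℂ := XX e α b 1 (cos E) (sin E)

open Classical in
noncomputable def Psi (E : ℂ) : ℂ :=
  if E.im = 0 then -I * Wf e α b E / (2 * Qf e α b E) else Xt e α b E / (E.im : ℂ) ^ 2

lemma hasDerivAt_Pf (E : ℂ) : HasDerivAt (Pf e) (P1f e E) E := by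
  have h := (((hasDerivAt_cos E).const_mul (e : ℂ)).const_add 1).pow 2
  refine HasDerivAt.congr_deriv h ?_
  simp [P1f, P1c]

lemma hasDerivAt_P1f (E : ℂ) : HasDerivAt (P1f e) (P2f e E) E := by
  have h := ((((hasDerivAt_cos E).const_mul (e : ℂ)).const_add 1).const_mul (-2)).mul
    ((hasDerivAt_sin E).const_mul (e : ℂ))
  refine HasDerivAt.congr_deriv h ?_
  simp [P2f, P2c]; ring

lemma hasDerivAt_Qf (E : ℂ) : HasDerivAt (Qf e α b) (Q1f e α b E) E := by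
  have h := ((((hasDerivAt_cos E).const_mul (e : ℂ)).const_add 1).pow 2).sub
    (((((hasDerivAt_cos E).const_add ((e : ℂ) * 1)).const_mul (α : ℂ)).add
      ((hasDerivAt_sin E).const_mul (b : ℂ))).pow 2)
  refine HasDerivAt.congr_deriv h ?_
  simp [Q1f, Q1c]

lemma hasDerivAt_Q1f (E : ℂ) : HasDerivAt (Q1f e α b) (Q2f e α b E) E := by
  have h := (((((hasDerivAt_cos E).const_mul (e : ℂ)).const_add 1).const_mul (-2)).mul
    ((hasDerivAt_sin E).const_mul (e : ℂ))).sub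
    ((((((hasDerivAt_cos E).const_add ((e : ℂ) * 1)).const_mul (α : ℂ)).add
      ((hasDerivAt_sin E).const_mul (b : ℂ))).const_mul 2).mul
      (((hasDerivAt_sin E).const_mul (-α : ℂ)).add ((hasDerivAt_cos E).const_mul (b : ℂ))))
  refine HasDerivAt.congr_deriv h ?_
  simp [Q2f, Q2c]; ring

lemma deriv_Pf : deriv (Pf e) = P1f e := funext fun E => (hasDerivAt_Pf e E).deriv
lemma deriv_P1f : deriv (P1f e) = P2f e := funext fun E => (hasDerivAt_P1f e E).deriv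
lemma deriv_Qf : deriv (Qf e α b) = Q1f e α b := funext fun E => (hasDerivAt_Qf e α b E).deriv
lemma deriv_Q1f : deriv (Q1f e α b) = Q2f e α b := funext fun E => (hasDerivAt_Q1f e α b E).deriv

lemma analytic_Pf (E : ℂ) : AnalyticAt ℂ (Pf e) E :=
  Differentiable.analyticAt (fun z => (hasDerivAt_Pf e z).differentiableAt) E
lemma analytic_P1f (E : ℂ) : AnalyticAt ℂ (P1f e) E :=
  Differentiable.analyticAt (fun z => (hasDerivAt_P1f e z).differentiableAt) E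
lemma analytic_Qf (E : ℂ) : AnalyticAt ℂ (Qf e α b) E :=
  Differentiable.analyticAt (fun z => (hasDerivAt_Qf e α b z).differentiableAt) E
lemma analytic_Q1f (E : ℂ) : AnalyticAt ℂ (Q1f e α b) E :=
  Differentiable.analyticAt (fun z => (hasDerivAt_Q1f e α b z).differentiableAt) E

lemma Pf_conj (E : ℂ) : Pf e (conj E) = conj (Pf e E) := by simp [Pf, Pc, cos_conj]
lemma P1f_conj (E : ℂ) : P1f e (conj E) = conj (P1f e E) := by
  simp [P1f, P1c, cos_conj, sin_conj, map_ofNat]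
lemma Qf_conj (E : ℂ) : Qf e α b (conj E) = conj (Qf e α b E) := by
  simp [Qf, Qc, cos_conj, sin_conj]
lemma Q1f_conj (E : ℂ) : Q1f e α b (conj E) = conj (Q1f e α b E) := by
  simp [Q1f, Q1c, cos_conj, sin_conj, map_ofNat]

lemma Xt_eq (E : ℂ) : Xt e α b E = -I * (Qf e α b E - ‖Qf e α b E‖) * P1f e E
    - ((Pf e E).im : ℂ) * Q1f e α b E := rfl

lemma Xt_conj (E : ℂ) : Xt e α b (conj E) = -conj (Xt e α b E) := by
  simp [Xt_eq, Pf_conj, P1f_conj, Qf_conj, Q1f_conj]; ring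

lemma continuous_Xt : Continuous (Xt e α b) := by
  unfold Xt XX Qc P1c Pc Q1c; fun_prop

lemma periodic_Psi : Function.Periodic (Psi e α b) (2 * π) := by
  intro E
  have : (E + 2 * π).im = E.im := by simp
  simp only [Psi, Wf, Qf, Xt, this, cos_add_two_pi, sin_add_two_pi]

lemma Qf_ofReal (x : ℝ) : Qf e α b x = (Qc e α b 1 (Real.cos x) (Real.sin x) : ℝ) := by
  simp [Qf, Qc]
lemma Wf_ofReal (x : ℝ) : Wf e α b x = (Wc e α b (Real.cos x) (Real.sin x) : ℝ) := by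
  simp [Wf, Wc, Qc, P1c, Q1c, P2c, Q2c]

/-- local square root of `Q` -/
noncomputable def rho (σ E₀ E : ℂ) : ℂ := σ * exp (log (Qf e α b E / Qf e α b E₀) / 2)

variable {e α b}

lemma rho_spec {σ E₀ : ℂ} (hQ : Qf e α b E₀ ≠ 0) (hσ : σ ^ 2 = Qf e α b E₀) :
    AnalyticAt ℂ (rho e α b σ E₀) E₀ ∧ rho e α b σ E₀ E₀ = σ ∧
      ∀ᶠ E in 𝓝 E₀, rho e α b σ E₀ E ^ 2 = Qf e α b E := by
  refine ⟨?_, by simp [rho, div_self hQ], ?_⟩
  · have h1 : AnalyticAt ℂ (fun E => log (Qf e α b E / Qf e α b E₀)) E₀ := by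
      refine AnalyticAt.clog ((analytic_Qf e α b E₀).div analyticAt_const hQ) ?_
      simp [div_self hQ]
    unfold rho
    fun_prop
  · filter_upwards [(analytic_Qf e α b E₀).continuousAt.eventually_ne hQ] with E hE
    rw [rho, mul_pow, hσ, ← exp_nat_mul]
    have : ((2 : ℕ) : ℂ) * (log (Qf e α b E / Qf e α b E₀) / 2) =
        log (Qf e α b E / Qf e α b E₀) := by push_cast; ring
    rw [this, exp_log (div_ne_zero hE hQ)]
    field_simp

lemma rho_derivs {ρ : ℂ → ℂ} {E₀ : ℂ} (hρ : AnalyticAt ℂ ρ E₀)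
    (h : ∀ᶠ E in 𝓝 E₀, ρ E ^ 2 = Qf e α b E) :
    ∀ᶠ E in 𝓝 E₀, ρ E ^ 2 = Qf e α b E ∧ 2 * ρ E * deriv ρ E = Q1f e α b E ∧
      2 * deriv ρ E ^ 2 + 2 * ρ E * deriv (deriv ρ) E = Q2f e α b E := by
  have h1 : ∀ᶠ E in 𝓝 E₀, 2 * ρ E * deriv ρ E = Q1f e α b E := by
    filter_upwards [h.eventually_nhds, hρ.eventually_analyticAt] with E hE ha
    have d := (ha.differentiableAt.hasDerivAt.pow 2).deriv
    have d2 := EventuallyEq.deriv_eq hE
    rw [deriv_Qf] at d2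
    rw [← d2]
    refine Eq.trans ?_ d.symm
    simp
  have h2 : ∀ᶠ E in 𝓝 E₀, 2 * deriv ρ E ^ 2 + 2 * ρ E * deriv (deriv ρ) E = Q2f e α b E := by
    filter_upwards [h1.eventually_nhds, hρ.eventually_analyticAt] with E hE ha
    have d := ((ha.differentiableAt.hasDerivAt.const_mul 2).mul
      ha.deriv.differentiableAt.hasDerivAt).deriv
    have d2 := EventuallyEq.deriv_eq hE
    rw [deriv_Q1f] at d2
    rw [← d2]
    refine Eq.trans ?_ d.symm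
    ring
  exact h.and (h1.and h2)

lemma Xt_eq_rho {ρ : ℂ → ℂ} {E : ℂ} (h : ρ E ^ 2 = Qf e α b E)
    (h1 : 2 * ρ E * deriv ρ E = Q1f e α b E) : Xt e α b E = 2 * ρ E * Xi ρ (Pf e) E := by
  have e1 : (‖Qf e α b E‖ : ℂ) = ρ E * conj (ρ E) := by
    rw [← h, mul_conj, norm_pow, normSq_eq_norm_sq]
  have e2 : conj (ρ E) = ρ E - 2 * I * (ρ E).im := by
    apply Complex.ext <;> simp; ring
  rw [Xt_eq, e1, e2, Xi, deriv_Pf, ← h, ← h1]
  linear_combination (-2 * ρ E * (ρ E).im * P1f e E) * I_mul_I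

/-- standing hypotheses of the generic case -/
structure Gen (e α b : ℝ) : Prop where
  e0 : 0 < e
  e1 : e < 1
  hα : α ≠ 0
  hb : b ≠ 0
  hbb : b ^ 2 < (1 - e ^ 2) * (1 - α ^ 2)

lemma Qc_pos {e α b c s : ℝ} (e0 : 0 < e) (e1 : e < 1) (hbb : b ^ 2 < (1 - e ^ 2) * (1 - α ^ 2))
    (h : c ^ 2 + s ^ 2 = 1) : 0 < Qc e α b 1 c s := by
  have h1 : 0 < 1 - e ^ 2 := by nlinarith
  have h2 : α ^ 2 < 1 := by
    by_contra hn
    nlinarith [sq_nonneg b]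
  have h3 : |α| < 1 := by rw [← sq_lt_one_iff_abs_lt_one]; exact h2
  obtain ⟨h4, h5⟩ := abs_lt.1 h3
  have h6 : 0 < 1 - α * e := by nlinarith
  have h7 : 0 < 1 + α * e := by nlinarith
  have a1 : |(e - α) * c - b * s| < 1 - α * e := by
    apply abs_lt_of_sq_lt_sq _ h6.le
    nlinarith [sq_nonneg ((e - α) * s + b * c)]
  have a2 : |(e + α) * c + b * s| < 1 + α * e := by
    apply abs_lt_of_sq_lt_sq _ h7.le
    nlinarith [sq_nonneg ((e + α) * s - b * c)]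
  have a3 := (abs_lt.1 a1).1
  have a4 := (abs_lt.1 a2).1
  have : Qc e α b 1 c s = (1 - α * e + ((e - α) * c - b * s)) *
      (1 + α * e + ((e + α) * c + b * s)) := by simp only [Qc]; ring
  rw [this]
  apply mul_pos <;> linarith

lemma Gen.Qpos (h : Gen e α b) (x : ℝ) : 0 < Qc e α b 1 (Real.cos x) (Real.sin x) :=
  Qc_pos h.e0 h.e1 h.hbb (Real.cos_sq_add_sin_sq x)

lemma Gen.nd (h : Gen e α b) {ρ : ℂ → ℂ} {E₀ : ℂ} (hρ : AnalyticAt ℂ ρ E₀)
    (hQ : ∀ᶠ E in 𝓝 E₀, ρ E ^ 2 = Qf e α b E) (A B : ℂ) (hAB : A ≠ 0 ∨ B ≠ 0) :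
    ¬ ∀ᶠ z in 𝓝 E₀, B * deriv (Pf e) z - A * deriv ρ z = 0 := by
  intro h0
  have h1 : (fun z => 4 * B ^ 2 * P1f e z ^ 2 * Qf e α b z) =ᶠ[𝓝 E₀]
      fun z => A ^ 2 * Q1f e α b z ^ 2 := by
    filter_upwards [h0, rho_derivs hρ hQ] with z hz ⟨h1, h2, _⟩
    rw [deriv_Pf] at hz
    rw [← h1, ← h2]
    linear_combination (4 * ρ z ^ 2 * (B * P1f e z + A * deriv ρ z)) * hz
  have h2 := AnalyticOnNhd.eq_of_eventuallyEq (𝕜 := ℂ) (fun z _ => by
      have := analytic_P1f e z; have := analytic_Qf e α b z; fun_prop)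
    (fun z _ => by have := analytic_Q1f e α b z; fun_prop) h1
  have h3 := congrFun h2 0
  have he : (e : ℂ) + 1 ≠ 0 := by exact_mod_cast (by linarith [h.e0] : e + 1 ≠ 0)
  have he' : (e : ℂ) ≠ 0 := by exact_mod_cast h.e0.ne'
  have hα : (α : ℂ) ≠ 0 := by exact_mod_cast h.hα
  have hb : (b : ℂ) ≠ 0 := by exact_mod_cast h.hb
  simp [P1f, P1c, Q1f, Q1c, he, hα, hb] at h3
  have hB : B ≠ 0 := by tauto
  have h4 := congrFun h2 ((π / 2 : ℝ) : ℂ)
  have h5 : Qf e α b ((π / 2 : ℝ) : ℂ) ≠ 0 := by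
    rw [Qf_ofReal]; exact_mod_cast (h.Qpos _).ne'
  have h6 : P1f e ((π / 2 : ℝ) : ℂ) ≠ 0 := by
    simp [P1f, P1c, he']
  simp only [h3] at h4
  have h7 : 4 * B ^ 2 * P1f e ((π / 2 : ℝ) : ℂ) ^ 2 * Qf e α b ((π / 2 : ℝ) : ℂ) ≠ 0 :=
    mul_ne_zero (mul_ne_zero (mul_ne_zero (by norm_num) (pow_ne_zero 2 hB)) (pow_ne_zero 2 h6)) h5
  apply h7
  rw [h4]; ring

end Pool.Agent.MP_4e5648_mp.H15
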