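import Pool.Agent.MP_4e5648_mp.H15.Curve1

set_option autoImplicit false

namespace Pool.Agent.MP_4e5648_mp.H15

open Complex Filter Topology Set
open scoped Real ComplexConjugate

variable {e α b : ℝ}

lemma eq_ofReal_of_im {E : ℂ} (h : E.im = 0) : E = (E.re : ℂ) := by
  apply Complex.ext <;> simp [h]

lemma Gen.real_local (h : Gen e α b) {x₀ : ℂ} (hx : x₀.im = 0) :
    ∃ ρ : ℂ → ℂ, AnalyticAt ℂ ρ x₀ ∧ ρ x₀ ≠ 0 ∧ (∀ᶠ E in 𝓝 x₀, ρ E ^ 2 = Qf e α b E) ∧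
      ∀ᶠ E in 𝓝 x₀, Psi e α b E = 2 * ρ E * PsiD ρ (Pf e) E := by
  set q := Qc e α b 1 (Real.cos x₀.re) (Real.sin x₀.re) with hq
  have hqpos : 0 < q := h.Qpos _
  have hQ : Qf e α b x₀ = q := by rw [eq_ofReal_of_im hx, Qf_ofReal]
  have hQ0 : Qf e α b x₀ ≠ 0 := by rw [hQ]; exact_mod_cast hqpos.ne'
  have hσ : ((Real.sqrt q : ℝ) : ℂ) ^ 2 = Qf e α b x₀ := by
    rw [hQ]; exact_mod_cast Real.sq_sqrt hqpos.le
  obtain ⟨h1, h2, h3⟩ := rho_spec hQ0 hσ
  set ρ := rho e α b (Real.sqrt q : ℝ) x₀ with hρ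
  refine ⟨ρ, h1, ?_, h3, ?_⟩
  · rw [h2]; exact_mod_cast (Real.sqrt_pos.2 hqpos).ne'
  have hs : ∀ᶠ E in 𝓝 x₀, Qf e α b E / Qf e α b x₀ ∈ slitPlane := by
    have : ContinuousAt (fun E => Qf e α b E / Qf e α b x₀) x₀ :=
      (analytic_Qf e α b x₀).continuousAt.div_const _
    exact this.eventually (isOpen_slitPlane.mem_nhds (by simp [div_self hQ0]))
  filter_upwards [rho_derivs h1 h3, hs] with E ⟨e1, e2, e3⟩ hE
  have hQE : Qf e α b E ≠ 0 := fun h0 => by simp [h0] at hE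
  have hρE : ρ E ≠ 0 := fun h0 => hQE (by rw [← e1, h0]; simp)
  by_cases him : E.im = 0
  · rw [Psi, PsiD, if_pos him, if_pos him, Dw, deriv_Pf, deriv_P1f]
    have : Wf e α b E = 2 * Qf e α b E * (P1f e E * Q2f e α b E - P2f e E * Q1f e α b E)
      - P1f e E * Q1f e α b E ^ 2 := rfl
    rw [this, ← e1, ← e2, ← e3]
    field_simp
    ring
  · have hc : ρ (conj E) = conj (ρ E) := by
      have : Qf e α b (conj E) / Qf e α b x₀ = conj (Qf e α b E / Qf e α b x₀) := by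
        rw [Qf_conj, hQ]; simp
      simp only [hρ, rho]
      rw [this, log_conj _ (slitPlane_arg_ne_pi hE), map_mul, ← exp_conj]
      simp [map_ofNat]
    rw [Psi, PsiD, if_neg him, if_neg him, Xt_eq_rho e1 e2, Del, hc, Pf_conj, Xi, sub_conj, sub_conj]
    have : (E.im : ℂ) ≠ 0 := by exact_mod_cast him
    push_cast
    field_simp

lemma Psi_nonreal {E₀ : ℂ} (hx : E₀.im ≠ 0) :
    ∀ᶠ E in 𝓝 E₀, E.im ≠ 0 ∧ Psi e α b E = Xt e α b E / (E.im : ℂ) ^ 2 := by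
  filter_upwards [continuous_im.continuousAt.eventually_ne hx] with E hE
  exact ⟨hE, by rw [Psi, if_neg hE]⟩

lemma Gen.continuous_Psi (h : Gen e α b) : Continuous (Psi e α b) := by
  rw [continuous_iff_continuousAt]
  intro E₀
  by_cases hx : E₀.im = 0
  · obtain ⟨ρ, h1, -, -, h4⟩ := h.real_local hx
    refine ContinuousAt.congr ?_ (EventuallyEq.symm h4)
    exact (continuousAt_const.mul h1.continuousAt).mul (continuousAt_psiD hx h1 (analytic_Pf e E₀))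
  · refine ContinuousAt.congr ?_ (EventuallyEq.symm ((Psi_nonreal hx).mono fun E hE => hE.2))
    refine (continuous_Xt e α b).continuousAt.div (by fun_prop) ?_
    exact pow_ne_zero _ (by exact_mod_cast hx)

lemma Gen.idx_real (h : Gen e α b) {x₀ : ℂ} (hx : x₀.im = 0) (h0 : Psi e α b x₀ = 0) :
    ∃ k : ℤ, 1 ≤ k ∧ LocIdx (Psi e α b) x₀ k := by
  obtain ⟨ρ, h1, h2, h3, h4⟩ := h.real_local hx
  have h5 := h4.self_of_nhds
  rw [h0, PsiD, if_pos hx] at h5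
  have h6 : Dw ρ (Pf e) x₀ = 0 := by simpa [h2] using h5
  have h7 : deriv (Pf e) x₀ ≠ 0 ∨ deriv ρ x₀ ≠ 0 := by
    by_contra hn
    push Not at hn
    have e2 := (rho_derivs h1 h3).self_of_nhds.2.1
    rw [hn.2, mul_zero, eq_ofReal_of_im hx] at e2
    have e1 := hn.1
    rw [deriv_Pf, eq_ofReal_of_im hx] at e1
    set x := x₀.re
    have a1 : P1c e 1 (Real.cos x) (Real.sin x) = 0 := by
      have : P1f e x = (P1c e 1 (Real.cos x) (Real.sin x) : ℝ) := by simp [P1f, P1c]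
      rw [this] at e1; exact_mod_cast e1
    have a2 : Q1c e α b 1 (Real.cos x) (Real.sin x) = 0 := by
      have : Q1f e α b x = (Q1c e α b 1 (Real.cos x) (Real.sin x) : ℝ) := by simp [Q1f, Q1c]
      rw [this] at e2; exact_mod_cast e2.symm
    have hc := Real.cos_sq_add_sin_sq x
    have hr : 0 < 1 + e * Real.cos x := by nlinarith [Real.neg_one_le_cos x, h.e0, h.e1]
    have hs : Real.sin x = 0 := by
      simp only [P1c] at a1
      simpa [hr.ne', h.e0.ne'] using a1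
    rw [hs] at hc a2
    simp only [Q1c] at a2
    have hc0 : Real.cos x ≠ 0 := by intro h0; rw [h0] at hc; norm_num at hc
    have hc1 : e + Real.cos x ≠ 0 := by
      intro h0
      have : Real.cos x = -e := by linarith
      rw [this] at hc; nlinarith [h.e0, h.e1]
    simp [h.hα, h.hb, hc0, hc1] at a2
  obtain ⟨k, hk, hk'⟩ := locIdx_real hx (analytic_Pf e x₀) h1 h7 h6 (h.nd h1 h3)
  refine ⟨k, hk, ?_⟩
  have t : Tendsto (fun E => 2 * ρ E) (𝓝[≠] x₀) (𝓝 (2 * ρ x₀)) :=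
    (h1.continuousAt.tendsto.const_mul 2).mono_left nhdsWithin_le_nhds
  exact (hk'.mul_tendsto t (mul_ne_zero two_ne_zero h2)).congr (mem_nhdsWithin_of_mem_nhds h4)

lemma idx_of_Xt {E₀ : ℂ} (hx : E₀.im ≠ 0) {k : ℤ} (h : LocIdx (Xt e α b) E₀ k) :
    LocIdx (Psi e α b) E₀ k := by
  refine h.congr_pos ?_
  filter_upwards [mem_nhdsWithin_of_mem_nhds (Psi_nonreal (e := e) (α := α) (b := b) hx)]
    with E ⟨h1, h2⟩
  refine ⟨(E.im ^ 2)⁻¹, by positivity, ?_⟩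
  rw [h2]; push_cast; ring

lemma trig_parts (E : ℂ) :
    (cos E).re ^ 2 - (cos E).im ^ 2 + (sin E).re ^ 2 - (sin E).im ^ 2 = 1 ∧
    (cos E).re * (cos E).im + (sin E).re * (sin E).im = 0 := by
  have h := cos_sq_add_sin_sq E
  have h1 := congrArg Complex.re h
  have h2 := congrArg Complex.im h
  simp [sq] at h1 h2
  constructor <;> nlinarith

lemma ex_eq (E : ℂ) : ex E = cos E + sin E * I := exp_mul_I E

lemma trig_nonreal {E : ℂ} (hE : E.im ≠ 0) : 0 < (cos E).im ^ 2 + (sin E).im ^ 2 := by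
  by_contra hn
  have h1 : (cos E).im = 0 := by nlinarith [sq_nonneg (cos E).im, sq_nonneg (sin E).im]
  have h2 : (sin E).im = 0 := by nlinarith [sq_nonneg (cos E).im, sq_nonneg (sin E).im]
  have h3 := (trig_parts E).1
  have h4 := Complex.sq_norm (ex E)
  rw [norm_ex, ex_eq, normSq_apply] at h4
  simp [h1, h2] at h4 h3
  have h5 : Real.exp (-E.im) ^ 2 = 1 := by nlinarith
  rw [← Real.exp_nat_mul, Real.exp_eq_one_iff] at h5
  apply hE; push_cast at h5; linarith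

/-- non-real parameter whose image point `(P, ρ)` is real -/
def Acn (e α b : ℝ) (E : ℂ) : Prop :=
  E.im ≠ 0 ∧ (Pf e E).im = 0 ∧ (Qf e α b E).im = 0 ∧ 0 ≤ (Qf e α b E).re

lemma Gen.acn_struct (h : Gen e α b) {E : ℂ} (hE : Acn e α b E) :
    1 + e * (cos E).re = 0 ∧ α * (e + (cos E).re) + b * (sin E).re = 0 ∧ (cos E).im ≠ 0 ∧
      α * (cos E).im + b * (sin E).im ≠ 0 := by
  obtain ⟨h0, h1, h2, h3⟩ := hE
  obtain ⟨t1, t2⟩ := trig_parts E
  have t3 := trig_nonreal h0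
  simp only [Pf, Pc, Qf, Qc] at h1 h2 h3
  set c₁ := (cos E).re with hc₁
  set c₂ := (cos E).im with hc₂
  set s₁ := (sin E).re with hs₁
  set s₂ := (sin E).im with hs₂
  have a1 : (1 + e * c₁) * (e * c₂) = 0 := by
    simp [sq, ← hc₁, ← hc₂] at h1; linarith
  have a2 : (α * (e + c₁) + b * s₁) * (α * c₂ + b * s₂) = 0 := by
    simp [sq, ← hc₁, ← hc₂, ← hs₁, ← hs₂] at h2; linarith
  have a3 : 0 ≤ (1 + e * c₁) ^ 2 - (e * c₂) ^ 2 - (α * (e + c₁) + b * s₁) ^ 2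
      + (α * c₂ + b * s₂) ^ 2 := by
    simp [sq, ← hc₁, ← hc₂, ← hs₁, ← hs₂] at h3; nlinarith
  have hc2 : c₂ ≠ 0 := by
    intro hc
    rw [hc] at t1 t2 t3 a2
    have hs2 : s₂ ≠ 0 := by intro h'; rw [h'] at t3; simp at t3
    have hs1 : s₁ = 0 := by simpa [hs2] using t2
    rw [hs1] at a2 t1
    have : e + c₁ = 0 := by simpa [h.hα, h.hb, hs2] using a2
    have : c₁ = -e := by linarith
    rw [this] at t1
    nlinarith [h.e0, h.e1, sq_nonneg s₂]
  have hr : 1 + e * c₁ = 0 := by simpa [h.e0.ne', hc2] using a1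
  have hz : α * c₂ + b * s₂ ≠ 0 := by
    intro hz
    rw [hz, hr] at a3
    have : 0 < (e * c₂) ^ 2 := by have := h.e0.ne'; positivity
    nlinarith [sq_nonneg (α * (e + c₁) + b * s₁)]
  exact ⟨hr, by simpa [hz] using a2, hc2, hz⟩

lemma Gen.acn_im (h : Gen e α b) {E : ℂ} (hE : Acn e α b E) :
    (conj (P1f e E) * Q1f e α b E).im ≠ 0 := by
  obtain ⟨a1, a2, a3, a4⟩ := h.acn_struct hE
  obtain ⟨t1, t2⟩ := trig_parts E
  have t3 := trig_nonreal hE.1
  set c₁ := (cos E).re with hc₁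
  set c₂ := (cos E).im with hc₂
  set s₁ := (sin E).re with hs₁
  set s₂ := (sin E).im with hs₂
  have t4 : s₁ * c₂ - s₂ * c₁ ≠ 0 := by
    intro h0
    have : (c₁ ^ 2 + s₁ ^ 2) * (c₂ ^ 2 + s₂ ^ 2) = 0 := by
      linear_combination (c₁ * c₂ + s₁ * s₂) * t2 + (s₁ * c₂ - s₂ * c₁) * h0
    have h1 : 0 < c₁ ^ 2 + s₁ ^ 2 := by linarith
    exact (mul_pos h1 t3).ne' this
  have r : (1 : ℂ) + e * cos E = (e * c₂ : ℝ) * I := by
    apply Complex.ext <;> simp [← hc₁, ← hc₂, a1]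
  have z : (α : ℂ) * (e * 1 + cos E) + b * sin E = (α * c₂ + b * s₂ : ℝ) * I := by
    apply Complex.ext <;> simp [← hc₁, ← hc₂, ← hs₁, ← hs₂, a2]
  have : (conj (P1f e E) * Q1f e α b E).im =
      4 * (e * c₂) * (α * c₂ + b * s₂) * (e * b) * (s₁ * c₂ - s₂ * c₁) := by
    simp only [P1f, P1c, Q1f, Q1c, r, z]
    simp [← hc₁, ← hc₂, ← hs₁, ← hs₂]
    ring
  rw [this]
  have := h.e0.ne'
  have := h.hb
  positivity

lemma Gen.acn_card (h : Gen e α b) :
    ∃ w₁ w₂ : ℂ, ∀ E, Acn e α b E → ex E = w₁ ∨ ex E = w₂ := by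
  set μ₁ : ℝ := -1 / e with hμ₁
  set μ₂ : ℝ := -α * (e + μ₁) / b with hμ₂
  set t := Real.sqrt (1 - 1 / (μ₁ ^ 2 + μ₂ ^ 2)) with ht
  refine ⟨(1 + t : ℝ) * (μ₁ + μ₂ * I), (1 - t : ℝ) * (μ₁ + μ₂ * I), fun E hE => ?_⟩
  obtain ⟨a1, a2, -, -⟩ := h.acn_struct hE
  obtain ⟨t1, t2⟩ := trig_parts E
  have he := h.e0.ne'
  have hb := h.hb
  have c1 : (cos E).re = μ₁ := by rw [hμ₁]; field_simp; linarith
  have s1 : (sin E).re = μ₂ := by rw [hμ₂, ← c1]; field_simp; linarith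
  have hμ : μ₁ ≠ 0 := by rw [hμ₁]; positivity
  rw [c1, s1] at t1 t2
  set τ := -(sin E).im / μ₁ with hτ
  have s2 : (sin E).im = -τ * μ₁ := by rw [hτ]; field_simp
  have c2 : (cos E).im = τ * μ₂ := by
    rw [s2] at t2
    apply mul_left_cancel₀ hμ; linarith
  have hN : 0 < μ₁ ^ 2 + μ₂ ^ 2 := by positivity
  have hτ2 : τ ^ 2 = 1 - 1 / (μ₁ ^ 2 + μ₂ ^ 2) := by
    rw [s2, c2] at t1
    field_simp; linarith
  have hex : ex E = (1 + τ : ℝ) * (μ₁ + μ₂ * I) := by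
    rw [ex_eq]
    apply Complex.ext <;> simp [c1, s1, s2, c2] <;> ring
  have : t = |τ| := by rw [ht, ← hτ2, Real.sqrt_sq_eq_abs]
  rcases abs_choice τ with h' | h'
  · left; rw [hex, this, h']
  · right; rw [hex, this, h']; simp

lemma Gen.simple_zero (h : Gen e α b) {E : ℂ} (h0 : Qf e α b E = 0) (h1 : Q1f e α b E = 0) :
    Pf e E = 0 := by
  have hcs := cos_sq_add_sin_sq E
  simp only [Qf, Qc, Q1f, Q1c, Pf, Pc] at h0 h1 ⊢
  set c := cos E
  set s := sin E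
  have hpos : (0 : ℝ) < (1 - e ^ 2) * (1 - α ^ 2) - b ^ 2 := by linarith [h.hbb]
  have hne : ((1 : ℂ) - e ^ 2) * (1 - α ^ 2) - b ^ 2 ≠ 0 := by exact_mod_cast hpos.ne'
  by_contra hn
  have hr : (1 : ℂ) + e * c ≠ 0 := fun h' => hn (by rw [h']; simp)
  have h2 : (1 + e * c - (α * (e * 1 + c) + b * s)) * (1 + e * c + (α * (e * 1 + c) + b * s)) = 0 := by
    linear_combination h0
  rcases mul_eq_zero.1 h2 with h3 | h3
  · have h4 : (1 + e * c) * (e * s + (-α * s + b * c)) = 0 := by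
      linear_combination (-1 / 2) * h1 + (-α * s + b * c) * h3
    have h5 := (mul_eq_zero.1 h4).resolve_left hr
    apply hne
    linear_combination (1 - α * e - ((e - α) * c - b * s)) * h3 - (e * s + (-α * s + b * c)) * h5
      + ((e - α) ^ 2 + b ^ 2) * hcs
  · have h4 : (1 + e * c) * (e * s - (-α * s + b * c)) = 0 := by
      linear_combination (-1 / 2) * h1 - (-α * s + b * c) * h3
    have h5 := (mul_eq_zero.1 h4).resolve_left hr
    apply hne
    linear_combination (1 + α * e - ((e + α) * c + b * s)) * h3 - (e * s - (-α * s + b * c)) * h5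
      + ((e + α) ^ 2 + b ^ 2) * hcs

end Pool.Agent.MP_4e5648_mp.H15
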