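import Pool.Agent.MP_4e5648_mp.H15.Curve2

set_option autoImplicit false

namespace Pool.Agent.MP_4e5648_mp.H15

open Complex Filter Topology Set
open scoped Real ComplexConjugate

variable {e α b : ℝ}

lemma branch_pos {a q ν : ℂ} (h : (conj a * q).im ≠ 0) (hν : ‖ν‖ = 1) :
    0 < ((-I * (ν * q - ‖q‖) * a - ((ν * a).im : ℂ) * q) / (I * a * ‖q‖)).re := by
  have ha : a ≠ 0 := by rintro rfl; simp at h
  have hq : q ≠ 0 := by rintro rfl; simp at h
  have hq' : (‖q‖ : ℂ) ≠ 0 := by exact_mod_cast (norm_pos_iff.2 hq).ne'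
  have hqp : 0 < ‖q‖ := norm_pos_iff.2 hq
  have hap : 0 < ‖a‖ := norm_pos_iff.2 ha
  have e0 : ν * a = ((ν * a).re : ℂ) + ((ν * a).im : ℂ) * I := (re_add_im _).symm
  have e1 : (-I * (ν * q - ‖q‖) * a - ((ν * a).im : ℂ) * q) / (I * a * ‖q‖)
      = 1 - (((ν * a).re / (‖a‖ ^ 2 * ‖q‖) : ℝ) : ℂ) * (conj a * q) := by
    have e2 : ((‖a‖ : ℂ)) ^ 2 = a * conj a := by rw [mul_conj, normSq_eq_norm_sq]; push_cast; ring
    have hc : conj a ≠ 0 := by simpa using ha
    push_cast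
    rw [e2]
    field_simp
    linear_combination (-I * q) * e0 + (-((ν * a).im : ℂ) * q) * I_mul_I
  rw [e1, sub_re, one_re, re_ofReal_mul, sub_pos, div_mul_eq_mul_div, div_lt_one (by positivity)]
  have b1 : |(ν * a).re| ≤ ‖a‖ := by
    have := abs_re_le_norm (ν * a)
    rwa [norm_mul, hν, one_mul] at this
  have b2 : |(conj a * q).re| < ‖a‖ * ‖q‖ := by
    have := abs_re_lt_norm.2 h
    rwa [norm_mul, norm_conj] at this
  calc (ν * a).re * (conj a * q).re ≤ |(ν * a).re| * |(conj a * q).re| := by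
        rw [← abs_mul]; exact le_abs_self _
    _ ≤ ‖a‖ * |(conj a * q).re| := mul_le_mul_of_nonneg_right b1 (abs_nonneg _)
    _ < ‖a‖ * (‖a‖ * ‖q‖) := mul_lt_mul_of_pos_left b2 hap
    _ = _ := by ring

lemma Gen.idx_branch (h : Gen e α b) {E₀ : ℂ} (hE : Acn e α b E₀) (hQ : Qf e α b E₀ = 0) :
    LocIdx (Xt e α b) E₀ 0 := by
  have him := h.acn_im hE
  have ha : P1f e E₀ ≠ 0 := by intro h0; simp [h0] at him
  have hq : Q1f e α b E₀ ≠ 0 := by intro h0; simp [h0] at him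
  have c1 : ContinuousAt (dslope (Pf e) E₀) E₀ :=
    continuousAt_dslope_same.2 (analytic_Pf e E₀).differentiableAt
  have c2 : ContinuousAt (dslope (Qf e α b) E₀) E₀ :=
    continuousAt_dslope_same.2 (analytic_Qf e α b E₀).differentiableAt
  have c3 := (analytic_P1f e E₀).continuousAt
  have c4 := (analytic_Q1f e α b E₀).continuousAt
  have key := locSec_of_tube (z₀ := E₀) (γ := I * P1f e E₀ * ‖Q1f e α b E₀‖)
    (Θ := fun p => -I * (p.2 * dslope (Qf e α b) E₀ p.1 - ‖dslope (Qf e α b) E₀ p.1‖) * P1f e p.1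
      - (((p.2 * dslope (Pf e) E₀ p.1).im : ℝ) : ℂ) * Q1f e α b p.1)
    (mul_ne_zero (mul_ne_zero I_ne_zero ha) (by exact_mod_cast (norm_pos_iff.2 hq).ne')) ?_ ?_
  · refine key.congr_pos ?_
    filter_upwards [self_mem_nhdsWithin] with z hz
    have hz' : 0 < ‖z - E₀‖ := norm_pos_iff.2 (sub_ne_zero.2 hz)
    have hz'' : (‖z - E₀‖ : ℂ) ≠ 0 := by exact_mod_cast hz'.ne'
    refine ⟨‖z - E₀‖, hz', ?_⟩
    have e1 : (Pf e z).im = ‖z - E₀‖ * ((z - E₀) / (‖z - E₀‖ : ℂ) * dslope (Pf e) E₀ z).im := by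
      rw [← im_ofReal_mul, ← mul_assoc, mul_div_cancel₀ _ hz'']
      conv_lhs => rw [sub_eq_dslope (Pf e) E₀ z, add_im, hE.2.1, zero_add]
    have e2 : Qf e α b z = (z - E₀) * dslope (Qf e α b) E₀ z := by
      conv_lhs => rw [sub_eq_dslope (Qf e α b) E₀ z, hQ, zero_add]
    rw [zpow_zero, div_one, Xt_eq, e1, e2, norm_mul]
    push_cast
    field_simp
  · intro ν _
    have d1 : ContinuousAt (fun p : ℂ × ℂ => dslope (Pf e) E₀ p.1) (E₀, ν) := c1.fst'
    have d2 : ContinuousAt (fun p : ℂ × ℂ => dslope (Qf e α b) E₀ p.1) (E₀, ν) := c2.fst'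
    have d3 : ContinuousAt (fun p : ℂ × ℂ => P1f e p.1) (E₀, ν) := c3.fst'
    have d4 : ContinuousAt (fun p : ℂ × ℂ => Q1f e α b p.1) (E₀, ν) := c4.fst'
    fun_prop
  · intro ν hν
    simp only [dslope_same, deriv_Pf, deriv_Qf]
    exact branch_pos him hν

open Classical in
noncomputable def kap (e α b : ℝ) (w : ℂ) : ℤ := if ∃ E, Acn e α b E ∧ ex E = w then -1 else 1

lemma kap_le (w : ℂ) : kap e α b w ≤ 1 := by unfold kap; split_ifs <;> norm_num

lemma Gen.idx_all (h : Gen e α b) (E₀ : ℂ) (h0 : Psi e α b E₀ = 0) :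
    ∃ k, kap e α b (ex E₀) ≤ k ∧ LocIdx (Psi e α b) E₀ k := by
  by_cases hx : E₀.im = 0
  · obtain ⟨k, hk, hk'⟩ := h.idx_real hx h0
    exact ⟨k, (kap_le _).trans hk, hk'⟩
  have hX : Xt e α b E₀ = 0 := by
    rw [Psi, if_neg hx, div_eq_zero_iff] at h0
    refine h0.resolve_right (pow_ne_zero _ (by exact_mod_cast hx))
  by_cases hQ : Qf e α b E₀ = 0
  · have hP : (Pf e E₀).im = 0 := by
      by_contra hn
      rw [Xt_eq, hQ] at hX
      have h1 : Q1f e α b E₀ = 0 := by simpa [hn] using hX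
      exact hn (by rw [h.simple_zero hQ h1]; simp)
    have hA : Acn e α b E₀ := ⟨hx, hP, by simp [hQ], by simp [hQ]⟩
    refine ⟨0, ?_, idx_of_Xt hx (h.idx_branch hA hQ)⟩
    rw [kap, if_pos ⟨E₀, hA, rfl⟩]; norm_num
  obtain ⟨σ, hσ⟩ := IsAlgClosed.exists_pow_nat_eq (Qf e α b E₀) two_pos
  obtain ⟨h1, h2, h3⟩ := rho_spec hQ hσ
  set ρ := rho e α b σ E₀
  have hσ0 : σ ≠ 0 := fun h' => hQ (by rw [← hσ, h']; simp)
  have h4 : ∀ᶠ E in 𝓝 E₀, Xt e α b E = 2 * ρ E * Xi ρ (Pf e) E := by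
    filter_upwards [rho_derivs h1 h3] with E ⟨e1, e2, _⟩
    exact Xt_eq_rho e1 e2
  have t : Tendsto (fun E => 2 * ρ E) (𝓝[≠] E₀) (𝓝 (2 * ρ E₀)) :=
    (h1.continuousAt.tendsto.const_mul 2).mono_left nhdsWithin_le_nhds
  have h5 : ∀ k, LocIdx (Xi ρ (Pf e)) E₀ k → LocIdx (Psi e α b) E₀ k := fun k hk =>
    idx_of_Xt hx ((hk.mul_tendsto t (mul_ne_zero two_ne_zero (h2 ▸ hσ0))).congr
      (mem_nhdsWithin_of_mem_nhds h4))
  by_cases hne : (Pf e E₀).im ≠ 0 ∨ (ρ E₀).im ≠ 0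
  · have h6 : Xi ρ (Pf e) E₀ = 0 := by
      have := h4.self_of_nhds
      rw [hX, h2] at this
      simpa [hσ0] using this
    obtain ⟨k, hk, hk'⟩ := locIdx_interior (analytic_Pf e E₀) h1 hne h6 (h.nd h1 h3)
    exact ⟨k, (kap_le _).trans hk, h5 k hk'⟩
  · push Not at hne
    have hσi : σ.im = 0 := h2 ▸ hne.2
    have hA : Acn e α b E₀ := by
      refine ⟨hx, hne.1, ?_, ?_⟩
      · rw [← hσ]; simp [sq, hσi]
      · rw [← hσ]; simp [sq, hσi, mul_self_nonneg]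
    refine ⟨-1, by rw [kap, if_pos ⟨E₀, hA, rfl⟩], h5 _ ?_⟩
    refine locIdx_acnode (analytic_Pf e E₀) h1 hne.1 hne.2 ?_
    have h6 := h.acn_im hA
    rw [← (rho_derivs h1 h3).self_of_nhds.2.1, h2, eq_ofReal_of_im hσi] at h6
    rw [deriv_Pf]
    intro h7
    apply h6
    have : conj (P1f e E₀) * (2 * (σ.re : ℂ) * deriv ρ E₀) =
        ((2 * σ.re : ℝ) : ℂ) * (conj (P1f e E₀) * deriv ρ E₀) := by push_cast; ring
    rw [this, im_ofReal_mul, h7, mul_zero]

lemma XX_homog {t : ℝ} (ht : 0 < t) (o c s : ℂ) :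
    XX e α b (t * o) (t * c) (t * s) = (t : ℂ) ^ 4 * XX e α b o c s := by
  have h1 : Qc (e : ℂ) α b (t * o) (t * c) (t * s) = ((t ^ 2 : ℝ) : ℂ) * Qc (e : ℂ) α b o c s := by
    simp only [Qc]; push_cast; ring
  have h2 : Pc (e : ℂ) (t * o) (t * c) = ((t ^ 2 : ℝ) : ℂ) * Pc (e : ℂ) o c := by
    simp only [Pc]; push_cast; ring
  rw [XX, XX, h1, h2, norm_mul, im_ofReal_mul, norm_real, Real.norm_of_nonneg (by positivity)]
  simp only [P1c, Q1c]
  push_cast; ring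

noncomputable def Phi (e α b : ℝ) (p : ℝ × ℝ) : ℂ :=
  XX e α b p.1 (((p.1 : ℂ) ^ 2 * exp (p.2 * I) + exp (-(p.2 * I))) / 2)
    ((exp (-(p.2 * I)) - (p.1 : ℂ) ^ 2 * exp (p.2 * I)) * I / 2) * exp (p.2 * I) ^ 2

lemma continuous_Phi : Continuous (Phi e α b) := by
  unfold Phi XX Qc P1c Pc Q1c; fun_prop

lemma Gen.Phi_zero (h : Gen e α b) (x : ℝ) : 0 < (Phi e α b (0, x)).re := by
  set v := exp (-(x * I)) with hv
  have hv1 : exp (x * I) * v = 1 := by rw [hv, ← exp_add]; simp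
  have hvn : ‖v‖ = 1 := by
    rw [hv, ← neg_mul, ← ofReal_neg, norm_exp_ofReal_mul_I]
  set q₀ : ℂ := e ^ 2 - (α + b * I) ^ 2 with hq₀
  have hq : q₀.im ≠ 0 := by
    have : q₀.im = -2 * α * b := by simp [hq₀, sq]; ring
    rw [this]; have := h.hα; have := h.hb; positivity
  have e1 : Qc (e : ℂ) α b 0 (v / 2) (v * I / 2) = q₀ * v ^ 2 / 4 := by
    simp only [Qc, hq₀]; ring
  have e2 : Pc (e : ℂ) 0 (v / 2) = ((e ^ 2 / 4 : ℝ) : ℂ) * v ^ 2 := by
    simp only [Pc]; push_cast; ring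
  have e3 : P1c (e : ℂ) 0 (v / 2) (v * I / 2) = -I * e ^ 2 * v ^ 2 / 2 := by
    simp only [P1c]; ring
  have e4 : Q1c (e : ℂ) α b 0 (v / 2) (v * I / 2) = -I * q₀ * v ^ 2 / 2 := by
    simp only [Q1c, hq₀]
    linear_combination (-(v ^ 2 / 2) * (α + b * I) * b) * I_mul_I
  have e5 : v ^ 2 = ((v ^ 2).re : ℂ) + ((v ^ 2).im : ℂ) * I := (re_add_im _).symm
  have e6 : Phi e α b (0, x) = ((e ^ 2 / 8 : ℝ) : ℂ) * (‖q₀‖ - ((v ^ 2).re : ℂ) * q₀) := by
    simp only [Phi, XX, ofReal_zero, ← hv]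
    rw [show ((0 : ℂ) ^ 2 * exp (x * I) + v) / 2 = v / 2 by ring,
      show (v - (0 : ℂ) ^ 2 * exp (x * I)) * I / 2 = v * I / 2 by ring, e1, e2, e3, e4,
      im_ofReal_mul, norm_div, norm_mul, norm_pow, hvn]
    push_cast
    simp only [one_pow, mul_one, norm_ofNat, ofReal_ofNat]
    set u := exp (x * I)
    linear_combination (e ^ 2 / 8 * (‖q₀‖ - ((v ^ 2).re : ℂ) * q₀) * (u * v + 1)) * hv1
      - (e ^ 2 / 8 * q₀ * v ^ 2 * u ^ 2) * e5
      + (e ^ 2 / 8 * v ^ 2 * u ^ 2 * (q₀ * v ^ 2 - ‖q₀‖)) * I_mul_I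
  rw [e6, re_ofReal_mul, sub_re, ofReal_re, re_ofReal_mul]
  have b1 : |(v ^ 2).re| ≤ 1 := by
    have := abs_re_le_norm (v ^ 2)
    rwa [norm_pow, hvn, one_pow] at this
  have b2 := abs_re_lt_norm.2 hq
  have b3 : (v ^ 2).re * q₀.re ≤ |q₀.re| := by
    calc (v ^ 2).re * q₀.re ≤ |(v ^ 2).re| * |q₀.re| := by rw [← abs_mul]; exact le_abs_self _
      _ ≤ 1 * |q₀.re| := mul_le_mul_of_nonneg_right b1 (abs_nonneg _)
      _ = _ := one_mul _
  have := h.e0
  apply mul_pos (by positivity); linarith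

lemma Psi_top {Y : ℝ} (hY : 0 < Y) (x : ℝ) :
    Psi e α b (x + Y * I) * exp (x * I) ^ 2 =
      (((Real.exp (-Y) ^ 4 * Y ^ 2)⁻¹ : ℝ) : ℂ) * Phi e α b (Real.exp (-Y), x) := by
  have him : ((x : ℂ) + Y * I).im = Y := by simp
  set δ := Real.exp (-Y) with hδ
  have hδ0 : 0 < δ := Real.exp_pos _
  have hδ' : (δ : ℂ) ≠ 0 := by exact_mod_cast hδ0.ne'
  have hY' : (Y : ℂ) ≠ 0 := by exact_mod_cast hY.ne'
  have a1 : exp ((x + Y * I) * I) = δ * exp (x * I) := by
    rw [hδ, ofReal_exp, ← exp_add]; congr 1; push_cast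
    linear_combination (Y : ℂ) * I_mul_I
  have a2 : δ * exp (-(x + Y * I) * I) = exp (-(x * I)) := by
    rw [hδ, ofReal_exp, ← exp_add]; congr 1; push_cast
    linear_combination (-Y : ℂ) * I_mul_I
  have c1 : δ * cos (x + Y * I) = ((δ : ℂ) ^ 2 * exp (x * I) + exp (-(x * I))) / 2 := by
    rw [Complex.cos, a1, ← a2]; ring
  have c2 : δ * sin (x + Y * I) = (exp (-(x * I)) - (δ : ℂ) ^ 2 * exp (x * I)) * I / 2 := by
    rw [Complex.sin, a1, ← a2]; ring
  have h := XX_homog (e := e) (α := α) (b := b) hδ0 1 (cos (x + Y * I)) (sin (x + Y * I))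
  rw [c1, c2, mul_one] at h
  rw [Psi, him, if_neg hY.ne', Phi, Xt]
  simp only
  rw [h]
  push_cast
  field_simp

lemma Gen.winds (h : Gen e α b) (τ : ℝ) : ∃ Y : ℝ, 0 < Y ∧ τ < Y ∧
    HasWind (fun x : ℝ => Psi e α b (x + Y * I)) (-2) ∧
    HasWind (fun x : ℝ => Psi e α b (x - Y * I)) 2 := by
  have h1 := (isCompact_Icc (a := (0 : ℝ)) (b := 2 * π)).eventually_forall_of_forall_eventually
    (x₀ := (0 : ℝ)) (P := fun δ x => 0 < (Phi e α b (δ, x)).re) (fun x _ => by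
      have : ContinuousAt (fun p => (Phi e α b p).re) (0, x) :=
        (continuous_re.comp continuous_Phi).continuousAt
      exact this.eventually (lt_mem_nhds (h.Phi_zero x)))
  have h2 : Tendsto (fun Y : ℝ => Real.exp (-Y)) atTop (𝓝 0) := Real.tendsto_exp_neg_atTop_nhds_zero
  obtain ⟨Y, hY1, hY2, hY3⟩ :=
    ((h2.eventually h1).and ((eventually_gt_atTop 0).and (eventually_gt_atTop τ))).exists
  refine ⟨Y, hY2, hY3, ?_⟩
  have hc := h.continuous_Psi
  set g : ℝ → ℂ := fun x => Psi e α b (x + Y * I) * exp (x * I) ^ 2 with hg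
  have hper : Function.Periodic g (2 * π) := by
    intro x
    simp only [hg]
    have := periodic_Psi e α b (x + Y * I)
    push_cast
    rw [add_right_comm, this, add_mul, exp_add, exp_two_pi_mul_I, mul_one]
  have hpos : ∀ x, 0 < (g x).re := by
    intro x
    obtain ⟨y, hy, hxy⟩ := hper.exists_mem_Ico₀ Real.two_pi_pos x
    rw [hxy, hg]
    simp only
    rw [Psi_top hY2, re_ofReal_mul]
    exact mul_pos (by positivity) (hY1 y (Ico_subset_Icc_self hy))
  have hgc : Continuous g := by fun_prop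
  have w1 : HasWind g 0 := hasWind_of_slit hgc (fun x => Or.inl (hpos x)) (by simpa using hper 0)
  have w2 : HasWind (fun x => conj (g x)) 0 :=
    hasWind_of_slit (continuous_conj.comp hgc) (fun x => Or.inl (by simpa using hpos x))
      (by have := hper 0; rw [zero_add] at this; simp [this])
  constructor
  · have := w1.mul (hasWind_exp.zpow (-2))
    refine (by simpa using this : HasWind _ (-2)).congr fun x => ?_
    have := exp_ne_zero (x * I)
    simp only [hg]; field_simp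
  · have := ((hasWind_const (neg_ne_zero.2 one_ne_zero)).mul w2).mul (hasWind_exp.zpow 2)
    rw [show (0 : ℤ) + 0 + 2 * 1 = 2 by ring] at this
    refine this.congr fun x => ?_
    have b1 : (x : ℂ) - Y * I = conj (x + Y * I) := by simp [sub_eq_add_neg]
    have b2 : ((x : ℂ) + Y * I).im ≠ 0 := by simpa using hY2.ne'
    have b3 : conj (exp (x * I)) * exp (x * I) = 1 := by
      rw [← exp_conj, ← exp_add]; simp
    have b4 : Psi e α b (conj (x + Y * I)) = -conj (Psi e α b (x + Y * I)) := by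
      rw [Psi, Psi, if_neg b2, if_neg (by simpa using hY2.ne'), Xt_conj]
      simp [neg_div]
    rw [b1, b4]
    simp only [hg, map_mul, map_pow, zpow_ofNat]
    linear_combination (-conj (Psi e α b (x + Y * I)) * (conj (exp (x * I)) * exp (x * I) + 1)) * b3

lemma ex_injOn : InjOn (fun x : ℝ => ex x) (Ico 0 (2 * π)) := by
  intro x hx y hy hxy
  obtain ⟨n, hn⟩ := exp_eq_exp_iff_exists_int.1 hxy
  have h1 : x = y + n * (2 * π) := by
    have := congrArg Complex.im hn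
    simpa using this
  have hp := Real.two_pi_pos
  have h2 : (n : ℝ) < 1 := by nlinarith [hx.2, hy.1]
  have h3 : (-1 : ℝ) < n := by nlinarith [hx.1, hy.2]
  have : n = 0 := by
    have a : n < 1 := by exact_mod_cast h2
    have b : -1 < n := by exact_mod_cast h3
    omega
  simpa [this] using h1

/-- Klein-type bound: at most four real inflection parameters. -/
theorem Gen.card_W (h : Gen e α b) (T : Finset ℝ) (hT : ∀ x ∈ T, x ∈ Ico 0 (2 * π))
    (hW : ∀ x ∈ T, Wc e α b (Real.cos x) (Real.sin x) = 0) : T.card ≤ 4 := by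
  classical
  have he1 : 1 < 1 / e := by rw [lt_div_iff₀ h.e0]; linarith [h.e1]
  set τ := Real.arcosh (1 / e) with hτ
  have hτc : Real.cosh τ = 1 / e := Real.cosh_arcosh he1.le
  have hτ0 : 0 < τ := Real.arcosh_pos he1
  obtain ⟨Y, hY, hτY, wt, wb⟩ := h.winds τ
  obtain ⟨Z, hZ, hsum⟩ := index_periodic h.continuous_Psi (periodic_Psi e α b) hY wt wb
    (kap e α b) h.idx_all
  obtain ⟨w₁, w₂, hw⟩ := h.acn_card
  have he' : (e : ℂ) ≠ 0 := by exact_mod_cast h.e0.ne'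
  have hstar : ∀ t : ℝ, |t| = τ → ex (π + t * I) ∈ Z ∧ kap e α b (ex (π + t * I)) = 1 ∧
      ‖ex (π + t * I)‖ = Real.exp (-t) := by
    intro t ht
    have ht0 : t ≠ 0 := by intro h0; rw [h0] at ht; simp at ht; exact hτ0.ne ht
    have him : ((π : ℂ) + t * I).im = t := by simp
    have hcos : cos (π + t * I) = -(1 / e : ℝ) := by
      rw [cos_add_mul_I, ← hτc, ← ht, Real.cosh_abs]; simp
    have hr : (1 : ℂ) + e * cos (π + t * I) = 0 := by
      rw [hcos]; push_cast; field_simp; ring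
    refine ⟨hZ _ (by rw [him, ht]; exact hτY) ?_, ?_, by rw [norm_ex, him]⟩
    · rw [Psi, him, if_neg ht0, Xt_eq]
      simp [P1f, P1c, Pf, Pc, hr]
    · rw [kap, if_neg]
      rintro ⟨E, hE, hE'⟩
      have := periodic_of_ex_eq cos_periodic hE'
      apply (h.acn_struct hE).2.2.1
      rw [this, hcos]; simp
  obtain ⟨s1, s2, s3⟩ := hstar τ (abs_of_pos hτ0)
  obtain ⟨s4, s5, s6⟩ := hstar (-τ) (by rw [abs_neg, abs_of_pos hτ0])
  set u₁ := ex (π + τ * I)
  set u₂ := ex (π + (-τ : ℝ) * I)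
  have n1 : ‖u₁‖ < 1 := by rw [s3]; exact Real.exp_lt_one_iff.2 (by linarith)
  have n2 : 1 < ‖u₂‖ := by rw [s6]; exact Real.one_lt_exp_iff.2 (by linarith)
  set T' := T.image (fun x : ℝ => ex x) with hT'
  have hT'c : T'.card = T.card := Finset.card_image_of_injOn (ex_injOn.mono hT)
  have hT'n : ∀ w ∈ T', ‖w‖ = 1 ∧ w ∈ Z ∧ kap e α b w = 1 := by
    intro w hw'
    obtain ⟨x, hx, rfl⟩ := Finset.mem_image.1 hw'
    have hn : ‖ex x‖ = 1 := by simp [norm_ex]
    refine ⟨hn, hZ _ (by simpa using hY) ?_, ?_⟩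
    · rw [Psi, if_pos (by simp), Wf_ofReal, hW x hx]; simp
    · rw [kap, if_neg]
      rintro ⟨E, hE, hE'⟩
      rw [← hE', norm_ex, Real.exp_eq_one_iff] at hn
      exact hE.1 (by linarith)
  set B := insert u₁ (insert u₂ T') with hB
  have hBc : B.card = T.card + 2 := by
    rw [hB, Finset.card_insert_of_notMem, Finset.card_insert_of_notMem, hT'c]
    · intro h'; exact n2.ne' (hT'n _ h').1
    · simp only [Finset.mem_insert, not_or]
      exact ⟨fun h' => by rw [h'] at n1; linarith, fun h' => n1.ne (hT'n _ h').1⟩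
  have hBZ : ∀ w ∈ B, w ∈ Z ∧ kap e α b w = 1 := by
    intro w hw'
    simp only [hB, Finset.mem_insert] at hw'
    rcases hw' with rfl | rfl | hw'
    exacts [⟨s1, s2⟩, ⟨s4, s5⟩, (hT'n w hw').2]
  have hle : ∑ w ∈ Z, ((if w ∈ B then 1 else 0) - (if w ∈ ({w₁, w₂} : Finset ℂ) then 1 else 0) : ℤ)
      ≤ ∑ w ∈ Z, kap e α b w := by
    refine Finset.sum_le_sum fun w _ => ?_
    by_cases h1 : w ∈ B
    · rw [(hBZ w h1).2, if_pos h1]; split_ifs <;> norm_num
    · rw [if_neg h1, kap]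
      split_ifs with h2 h3 h3
      · norm_num
      · norm_num
      · obtain ⟨E, hE, rfl⟩ := h3
        exact absurd (by simpa using hw E hE) h2
      · norm_num
  rw [Finset.sum_sub_distrib, Finset.sum_boole, Finset.sum_boole] at hle
  have c1 : B.card ≤ (Z.filter (· ∈ B)).card :=
    Finset.card_le_card fun w hw' => Finset.mem_filter.2 ⟨(hBZ w hw').1, hw'⟩
  have c2 : (Z.filter (· ∈ ({w₁, w₂} : Finset ℂ))).card ≤ 2 :=
    (Finset.card_le_card fun w hw' => (Finset.mem_filter.1 hw').2).trans Finset.card_le_two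
  omega

end Pool.Agent.MP_4e5648_mp.H15
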