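import Pool.Agent.MP_4e5648_mp.H15.Count3

set_option autoImplicit false

namespace Pool.Agent.MP_4e5648_mp.H15

open Set Real

lemma inner3 (u v : EuclideanSpace ℝ (Fin 3)) :
    inner ℝ u v = u 0 * v 0 + u 1 * v 1 + u 2 * v 2 := by
  simp [PiLp.inner_apply, Fin.sum_univ_three, mul_comm]

lemma normsq3 (u : EuclideanSpace ℝ (Fin 3)) : ‖u‖ ^ 2 = u 0 * u 0 + u 1 * u 1 + u 2 * u 2 := by
  rw [← real_inner_self_eq_norm_sq, inner3]

lemma frame3 {u w : EuclideanSpace ℝ (Fin 3)} (hu : ‖u‖ = 1) (hw : ‖w‖ = 1)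
    (huw : inner ℝ u w = 0) : ∃ n : EuclideanSpace ℝ (Fin 3) → ℝ, ∀ p q,
      inner ℝ u p * inner ℝ u q + inner ℝ w p * inner ℝ w q + n p * n q = inner ℝ p q := by
  refine ⟨fun p => (u 1 * w 2 - u 2 * w 1) * p 0 + (u 2 * w 0 - u 0 * w 2) * p 1
    + (u 0 * w 1 - u 1 * w 0) * p 2, fun p q => ?_⟩
  have a := normsq3 u
  have b := normsq3 w
  rw [hu] at a
  rw [hw] at b
  simp only [inner3] at huw ⊢
  set A := u 0 * u 0 + u 1 * u 1 + u 2 * u 2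
  set up := u 0 * p 0 + u 1 * p 1 + u 2 * p 2 with hup
  set uq := u 0 * q 0 + u 1 * q 1 + u 2 * q 2 with huq
  set wp := w 0 * p 0 + w 1 * p 1 + w 2 * p 2 with hwp
  set wq := w 0 * q 0 + w 1 * q 1 + w 2 * q 2 with hwq
  set pq := p 0 * q 0 + p 1 * q 1 + p 2 * q 2 with hpq
  linear_combination (wp * wq - pq * (w 0 * w 0 + w 1 * w 1 + w 2 * w 2)) * a + (up * uq - pq) * b
    + (up * wq + wp * uq - pq * (u 0 * w 0 + u 1 * w 1 + u 2 * w 2)) * huw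

theorem circle_ellipse (F u₁ w₁ u₂ w₂ : EuclideanSpace ℝ (Fin 3)) (R a e : ℝ)
    (P Q : ℝ → EuclideanSpace ℝ (Fin 3)) (hR : 0 < R) (ha : 0 < a) (e0 : 0 < e) (e1 : e < 1)
    (hu₁ : ‖u₁‖ = 1) (hw₁ : ‖w₁‖ = 1) (h₁ : inner ℝ u₁ w₁ = 0)
    (hu₂ : ‖u₂‖ = 1) (hw₂ : ‖w₂‖ = 1) (h₂ : inner ℝ u₂ w₂ = 0)
    (hP : ∀ s : ℝ, P s = F + (R * Real.cos s) • u₁ + (R * Real.sin s) • w₁)
    (hQ : ∀ t : ℝ, Q t = F + (a * (e + Real.cos t)) • u₂
      + (a * Real.sqrt (1 - e ^ 2) * Real.sin t) • w₂) :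
    {x : EuclideanSpace ℝ (Fin 3) × EuclideanSpace ℝ (Fin 3) |
      ∃ s t : ℝ, x = (P s, Q t) ∧ HasDerivAt (fun s' => ‖P s' - Q t‖ ^ 2) 0 s ∧
        HasDerivAt (fun t' => ‖P s - Q t'‖ ^ 2) 0 t}.encard ≤ 10 := by
  set β := Real.sqrt (1 - e ^ 2) with hβd
  have hβ : β ^ 2 = 1 - e ^ 2 := sq_sqrt (by nlinarith)
  obtain ⟨n, hn⟩ := frame3 hu₁ hw₁ h₁
  have n1 := hn u₂ u₂
  have n2 := hn w₂ w₂
  have n3 := hn u₂ w₂
  rw [real_inner_self_eq_norm_sq, hu₂] at n1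
  rw [real_inner_self_eq_norm_sq, hw₂] at n2
  rw [h₂] at n3
  set x₁ := inner ℝ u₁ u₂ with hx₁
  set x₂ := inner ℝ u₁ w₂ with hx₂
  set y₁ := inner ℝ w₁ u₂ with hy₁
  set y₂ := inner ℝ w₁ w₂ with hy₂
  have hC := crit_le (R := R / a) (x₁ := x₁) (y₁ := y₁) (x₂ := x₂) (y₂ := y₂) (α := n u₂)
    (γ := n w₂) e0 e1 (div_pos hR ha) hβ (by linarith) (by linarith) n3
  have hd : ∀ s t, ‖P s - Q t‖ ^ 2 = R ^ 2 + a ^ 2 * (1 + e * cos t) ^ 2 -
      2 * R * a * (cos s * (x₁ * (e + cos t) + β * x₂ * sin t)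
        + sin s * (y₁ * (e + cos t) + β * y₂ * sin t)) := by
    intro s t
    have b1 := normsq3 u₁
    have b2 := normsq3 w₁
    have b3 := normsq3 u₂
    have b4 := normsq3 w₂
    rw [hu₁] at b1
    rw [hw₁] at b2
    rw [hu₂] at b3
    rw [hw₂] at b4
    rw [normsq3, hP, hQ, hx₁, hx₂, hy₁, hy₂]
    simp only [inner3] at h₁ h₂ ⊢
    simp only [PiLp.sub_apply, PiLp.add_apply, PiLp.smul_apply, smul_eq_mul]
    linear_combination (-(R * cos s) ^ 2) * b1 - (R * sin s) ^ 2 * b2 - (a * (e + cos t)) ^ 2 * b3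
      - (a * β * sin t) ^ 2 * b4 + 2 * R ^ 2 * cos s * sin s * h₁
      + 2 * a ^ 2 * (e + cos t) * β * sin t * h₂ + R ^ 2 * sin_sq_add_cos_sq s
      + a ^ 2 * sin t ^ 2 * hβ + a ^ 2 * (1 - e ^ 2) * sin_sq_add_cos_sq t
  refine le_trans (encard_le_encard ?_) ((encard_image_le
    (fun p : (ℝ × ℝ) × ℝ => (F + (R * p.1.1) • u₁ + (R * p.1.2) • w₁, Q p.2)) _).trans hC)
  rintro x ⟨s, t, rfl, d1, d2⟩
  simp only [hd] at d1 d2
  have e1' := d1.unique (((((hasDerivAt_cos s).mul_const _).add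
    ((hasDerivAt_sin s).mul_const _)).const_mul _).const_sub _)
  have e2' := d2.unique ((((((hasDerivAt_cos t).const_mul e).const_add 1).pow 2).const_mul
    (a ^ 2)).const_add (R ^ 2) |>.sub
    (((((((hasDerivAt_cos t).const_add e).const_mul x₁).add
      ((hasDerivAt_sin t).const_mul (β * x₂))).const_mul (cos s)).add
      (((((hasDerivAt_cos t).const_add e).const_mul y₁).add
      ((hasDerivAt_sin t).const_mul (β * y₂))).const_mul (sin s))).const_mul (2 * R * a)))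
  set t' := toIcoMod two_pi_pos 0 t with ht'
  have hc : cos t' = cos t := by
    rw [ht', toIcoMod, zsmul_eq_mul, cos_sub_int_mul_two_pi]
  have hs : sin t' = sin t := by
    rw [ht', toIcoMod, zsmul_eq_mul, sin_sub_int_mul_two_pi]
  refine ⟨((cos s, sin s), t'), ⟨by simpa using toIcoMod_mem_Ico two_pi_pos 0 t,
    cos_sq_add_sin_sq s, ?_, ?_⟩, ?_⟩
  · simp only [hc, hs]
    apply mul_left_cancel₀ (mul_pos hR ha).ne'
    linear_combination (1 / 2) * e1'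
  · simp only [hc, hs]
    apply mul_left_cancel₀ (pow_pos ha 2).ne'
    rw [← mul_assoc, show a ^ 2 * (R / a) = a * R by field_simp]
    linear_combination (1 / 2) * e2'
  · simp only [hP, hQ, hc, hs]

end Pool.Agent.MP_4e5648_mp.H15
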