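import Pool.Agent.MP_4e5648_mp.H15.Wind

set_option autoImplicit false

namespace Pool.Agent.MP_4e5648_mp.H15

open Complex Filter Topology Set
open scoped Real ComplexConjugate

noncomputable def Xi (φ ψ : ℂ → ℂ) (z : ℂ) : ℂ :=
  ((φ z).im : ℂ) * deriv ψ z - ((ψ z).im : ℂ) * deriv φ z

lemma deriv_pow_form {f G : ℂ → ℂ} {z₀ : ℂ} {n : ℕ} (hG : AnalyticAt ℂ G z₀)
    (h : ∀ᶠ z in 𝓝 z₀, f z = (z - z₀) ^ (n + 1) * G z) :
    ∃ G₁ : ℂ → ℂ, AnalyticAt ℂ G₁ z₀ ∧ G₁ z₀ = (n + 1) * G z₀ ∧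
      ∀ᶠ z in 𝓝 z₀, deriv f z = (z - z₀) ^ n * G₁ z := by
  refine ⟨fun z => (n + 1) * G z + (z - z₀) * deriv G z, ?_, by simp, ?_⟩
  · have := hG.deriv
    fun_prop
  · filter_upwards [h.eventually_nhds, hG.eventually_analyticAt] with z hz hz'
    have h1 : HasDerivAt (fun z => (z - z₀) ^ (n + 1) * G z)
        ((((n + 1 : ℕ) : ℂ) * (z - z₀) ^ n * 1) * G z + (z - z₀) ^ (n + 1) * deriv G z) z :=
      (((hasDerivAt_id z).sub_const z₀).pow (n + 1)).mul hz'.differentiableAt.hasDerivAt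
    rw [EventuallyEq.deriv_eq hz, h1.deriv]
    push_cast; ring

lemma exists_pow_form {f : ℂ → ℂ} {z₀ : ℂ} (hf : AnalyticAt ℂ f z₀) (h0 : f z₀ = 0)
    (hne : ¬ ∀ᶠ z in 𝓝 z₀, f z = 0) :
    ∃ (n : ℕ) (G : ℂ → ℂ), AnalyticAt ℂ G z₀ ∧ G z₀ ≠ 0 ∧
      ∀ᶠ z in 𝓝 z₀, f z = (z - z₀) ^ (n + 1) * G z := by
  obtain ⟨n, G, hG, hG0, h⟩ := hf.exists_eventuallyEq_pow_smul_nonzero_iff.2 hne
  rcases n with _ | n
  · have := h.self_of_nhds
    simp [h0] at this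
    exact absurd this.symm hG0
  · exact ⟨n, G, hG, hG0, by simpa using h⟩

theorem locIdx_interior {P ρ : ℂ → ℂ} {z₀ : ℂ} (hP : AnalyticAt ℂ P z₀) (hρ : AnalyticAt ℂ ρ z₀)
    (hne : (P z₀).im ≠ 0 ∨ (ρ z₀).im ≠ 0) (h0 : Xi ρ P z₀ = 0)
    (hnd : ∀ A B : ℂ, (A ≠ 0 ∨ B ≠ 0) → ¬ ∀ᶠ z in 𝓝 z₀, B * deriv P z - A * deriv ρ z = 0) :
    ∃ k : ℤ, 1 ≤ k ∧ LocIdx (Xi ρ P) z₀ k := by
  set A : ℝ := (P z₀).im with hA
  set B : ℝ := (ρ z₀).im with hB
  have hM : (0 : ℝ) < A ^ 2 + B ^ 2 := by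
    rcases hne with h | h <;> positivity
  have hM' : ((A : ℂ) ^ 2 + B ^ 2) ≠ 0 := by exact_mod_cast hM.ne'
  set ψ : ℂ → ℂ := fun z => B * P z - A * ρ z - (B * P z₀ - A * ρ z₀) with hψ
  have hψa : AnalyticAt ℂ ψ z₀ := by fun_prop
  have hdψ : ∀ᶠ z in 𝓝 z₀, deriv ψ z = B * deriv P z - A * deriv ρ z := by
    filter_upwards [hP.eventually_analyticAt, hρ.eventually_analyticAt] with z h1 h2
    exact (((h1.differentiableAt.hasDerivAt.const_mul (B : ℂ)).sub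
      (h2.differentiableAt.hasDerivAt.const_mul (A : ℂ))).sub_const _).deriv
  have hψne : ¬ ∀ᶠ z in 𝓝 z₀, ψ z = 0 := by
    intro h
    refine hnd A B (by exact_mod_cast hne) ?_
    filter_upwards [h.eventually_nhds, hdψ] with z hz hz'
    rw [← hz', EventuallyEq.deriv_eq (f := fun _ => 0) hz, deriv_const]
  obtain ⟨n, G, hG, hG0, hform⟩ := exists_pow_form hψa (by simp [hψ]) hψne
  obtain ⟨G₁, hG₁, hG₁0, hform1⟩ := deriv_pow_form hG hform
  have hG₁ne : G₁ z₀ ≠ 0 := by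
    rw [hG₁0]; exact mul_ne_zero (by exact_mod_cast Nat.succ_ne_zero n) hG0
  have hn : n ≠ 0 := by
    rintro rfl
    have h1 := hform1.self_of_nhds
    rw [hdψ.self_of_nhds] at h1
    simp only [Xi] at h0
    rw [← hA, ← hB] at h0
    rw [h0] at h1
    simp at h1
    exact hG₁ne h1.symm
  refine ⟨n, by omega, ?_⟩
  have hle : 𝓝[≠] z₀ ≤ 𝓝 z₀ := nhdsWithin_le_nhds
  have t1 : Tendsto (fun z => ((ψ z).im : ℂ) / (z - z₀) ^ n) (𝓝[≠] z₀) (𝓝 0) := by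
    have t0 : Tendsto (fun z => ‖z - z₀‖ * ‖G z‖) (𝓝[≠] z₀) (𝓝 0) := by
      have : ContinuousAt (fun z => ‖z - z₀‖ * ‖G z‖) z₀ := by
        have := hG.continuousAt
        fun_prop
      simpa using this.tendsto.mono_left hle
    refine squeeze_zero_norm' ?_ t0
    filter_upwards [hle hform, self_mem_nhdsWithin] with z hz hz'
    have hz'' : 0 < ‖z - z₀‖ := norm_pos_iff.2 (sub_ne_zero.2 hz')
    rw [norm_div, norm_pow, div_le_iff₀ (by positivity), norm_real, Real.norm_eq_abs]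
    refine (abs_im_le_norm _).trans (le_of_eq ?_)
    rw [hz, norm_mul, norm_pow]; ring
  have t2 : Tendsto (fun z => ((((A * P z + B * ρ z).im : ℝ) : ℂ) * G₁ z -
      ((ψ z).im : ℂ) / (z - z₀) ^ n * (A * deriv P z + B * deriv ρ z)) / (A ^ 2 + B ^ 2))
      (𝓝[≠] z₀) (𝓝 (((((A * P z₀ + B * ρ z₀).im : ℝ) : ℂ) * G₁ z₀ -
        0 * (A * deriv P z₀ + B * deriv ρ z₀)) / (A ^ 2 + B ^ 2))) := by
    have c1 : ContinuousAt (fun z => (((A * P z + B * ρ z).im : ℝ) : ℂ) * G₁ z) z₀ := by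
      have := hP.continuousAt; have := hρ.continuousAt; have := hG₁.continuousAt
      fun_prop
    have c2 : ContinuousAt (fun z => (A * deriv P z + B * deriv ρ z)) z₀ := by
      have := hP.deriv.continuousAt; have := hρ.deriv.continuousAt
      fun_prop
    exact ((c1.tendsto.mono_left hle).sub (t1.mul (c2.tendsto.mono_left hle))).div_const _
  refine (locSec_of_tendsto t2 ?_).congr ?_
  · have : (A * P z₀ + B * ρ z₀).im = A ^ 2 + B ^ 2 := by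
      simp [← hA, ← hB]; ring
    rw [this]; push_cast
    rw [zero_mul, sub_zero, mul_div_cancel_left₀ _ hM']
    exact hG₁ne
  · filter_upwards [hle hform1, hle hdψ, self_mem_nhdsWithin] with z h1 h2 hz
    have hz' : (z - z₀) ^ n ≠ 0 := pow_ne_zero _ (sub_ne_zero.2 hz)
    have e1 : G₁ z = (B * deriv P z - A * deriv ρ z) / (z - z₀) ^ n := by
      rw [← h2, h1]; field_simp
    have e2 : (ψ z).im = B * (P z).im - A * (ρ z).im := by
      simp [hψ, ← hA, ← hB]; ring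
    have e3 : (A * P z + B * ρ z).im = A * (P z).im + B * (ρ z).im := by simp
    rw [e1, e2, e3, Xi, zpow_natCast]
    push_cast
    field_simp
    ring

lemma locSec_of_tube {Θ : ℂ × ℂ → ℂ} {z₀ γ : ℂ} (hγ : γ ≠ 0)
    (hc : ∀ ν : ℂ, ‖ν‖ = 1 → ContinuousAt Θ (z₀, ν))
    (hpos : ∀ ν : ℂ, ‖ν‖ = 1 → 0 < (Θ (z₀, ν) / γ).re) :
    LocSec (fun z => Θ (z, (z - z₀) / (‖z - z₀‖ : ℂ))) (𝓝[≠] z₀) := by
  refine ⟨γ, 1, hγ, one_pos, ?_⟩
  have h := (isCompact_sphere (0 : ℂ) 1).eventually_forall_of_forall_eventually (x₀ := z₀)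
    (P := fun z ν => 0 < (Θ (z, ν) / γ).re) (fun ν hν => by
      have hν' : ‖ν‖ = 1 := by simpa using hν
      have h1 : ContinuousAt (fun p => (Θ p / γ).re) (z₀, ν) :=
        continuous_re.continuousAt.comp ((hc ν hν').div_const γ)
      exact h1.eventually (lt_mem_nhds (hpos ν hν')))
  filter_upwards [mem_nhdsWithin_of_mem_nhds h, self_mem_nhdsWithin] with z hz hne
  apply sector_of_re_pos
  apply hz
  have : 0 < ‖z - z₀‖ := norm_pos_iff.2 (sub_ne_zero.2 hne)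
  simp [this.ne']

lemma sub_eq_dslope (f : ℂ → ℂ) (z₀ z : ℂ) : f z = f z₀ + (z - z₀) * dslope f z₀ z := by
  have := sub_smul_dslope f z₀ z
  rw [smul_eq_mul] at this
  rw [this]; ring

theorem locIdx_acnode {P ρ : ℂ → ℂ} {z₀ : ℂ} (hP : AnalyticAt ℂ P z₀) (hρ : AnalyticAt ℂ ρ z₀)
    (hPi : (P z₀).im = 0) (hρi : (ρ z₀).im = 0)
    (hγ : (conj (deriv P z₀) * deriv ρ z₀).im ≠ 0) : LocIdx (Xi ρ P) z₀ (-1) := by
  have c1 : ContinuousAt (dslope P z₀) z₀ := continuousAt_dslope_same.2 hP.differentiableAt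
  have c2 : ContinuousAt (dslope ρ z₀) z₀ := continuousAt_dslope_same.2 hρ.differentiableAt
  have c3 := hP.deriv.continuousAt
  have c4 := hρ.deriv.continuousAt
  have h := locSec_of_tube (z₀ := z₀) (γ := ((conj (deriv P z₀) * deriv ρ z₀).im : ℂ))
    (Θ := fun p => ((((p.2 * dslope ρ z₀ p.1).im : ℝ) : ℂ) * deriv P p.1 -
      (((p.2 * dslope P z₀ p.1).im : ℝ) : ℂ) * deriv ρ p.1) * p.2) (by exact_mod_cast hγ) ?_ ?_
  · refine h.congr_pos ?_
    filter_upwards [self_mem_nhdsWithin] with z hz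
    have hz' : 0 < ‖z - z₀‖ := norm_pos_iff.2 (sub_ne_zero.2 hz)
    have hz'' : (‖z - z₀‖ : ℂ) ≠ 0 := by exact_mod_cast hz'.ne'
    refine ⟨‖z - z₀‖ ^ 2, by positivity, ?_⟩
    have e1 : (P z).im = ‖z - z₀‖ * ((z - z₀) / (‖z - z₀‖ : ℂ) * dslope P z₀ z).im := by
      rw [← im_ofReal_mul, ← mul_assoc, mul_div_cancel₀ _ hz'']
      conv_lhs => rw [sub_eq_dslope P z₀ z, add_im, hPi, zero_add]
    have e2 : (ρ z).im = ‖z - z₀‖ * ((z - z₀) / (‖z - z₀‖ : ℂ) * dslope ρ z₀ z).im := by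
      rw [← im_ofReal_mul, ← mul_assoc, mul_div_cancel₀ _ hz'']
      conv_lhs => rw [sub_eq_dslope ρ z₀ z, add_im, hρi, zero_add]
    rw [Xi, e1, e2]
    push_cast
    simp only [zpow_neg, zpow_one, div_inv_eq_mul]
    field_simp
  · intro ν _
    have d1 : ContinuousAt (fun p : ℂ × ℂ => dslope P z₀ p.1) (z₀, ν) := c1.fst'
    have d2 : ContinuousAt (fun p : ℂ × ℂ => dslope ρ z₀ p.1) (z₀, ν) := c2.fst'
    have d3 : ContinuousAt (fun p : ℂ × ℂ => deriv P p.1) (z₀, ν) := c3.fst'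
    have d4 : ContinuousAt (fun p : ℂ × ℂ => deriv ρ p.1) (z₀, ν) := c4.fst'
    fun_prop
  · intro ν hν
    simp only [dslope_same]
    set a := deriv P z₀
    set b := deriv ρ z₀
    have h1 : ν.re ^ 2 + ν.im ^ 2 = 1 := by
      have := Complex.sq_norm ν
      rw [hν, normSq_apply] at this; linarith
    have h2 : ((((ν * b).im : ℝ) : ℂ) * a - (((ν * a).im : ℝ) : ℂ) * b) * ν
        = ((conj a * b).im : ℂ) := by
      apply Complex.ext
      · simp; linear_combination (a.re * b.im - a.im * b.re) * h1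
      · simp; ring
    rw [h2, div_self (by exact_mod_cast hγ)]
    simp

end Pool.Agent.MP_4e5648_mp.H15
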