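import Pool.Agent.MP_4e5648_mp.H15.Local

set_option autoImplicit false

namespace Pool.Agent.MP_4e5648_mp.H15

open Complex Filter Topology Set
open scoped Real ComplexConjugate

noncomputable def Del (φ ψ : ℂ → ℂ) (a b : ℂ) : ℂ :=
  (φ b - φ a) * deriv ψ b - (ψ b - ψ a) * deriv φ b

noncomputable def Dw (φ ψ : ℂ → ℂ) (z : ℂ) : ℂ :=
  deriv ψ z * deriv (deriv φ) z - deriv φ z * deriv (deriv ψ) z

open Classical in
noncomputable def PsiD (φ ψ : ℂ → ℂ) (z : ℂ) : ℂ :=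
  if z.im = 0 then -I * Dw φ ψ z else Del φ ψ (conj z) z / (2 * I * (z.im : ℂ) ^ 2)

lemma mv2 {g g1 g2 : ℂ → ℂ} {s : Set ℂ} (hs : Convex ℝ s)
    (h1 : ∀ x ∈ s, HasDerivAt g (g1 x) x) (h2 : ∀ x ∈ s, HasDerivAt g1 (g2 x) x) {a b : ℂ}
    (ha : a ∈ s) (hb : b ∈ s) (hg : g b = 0) (hg1 : g1 b = 0) {C : ℝ}
    (hC : ∀ x ∈ s, ‖g2 x‖ ≤ C) : ‖g a‖ ≤ C * ‖a - b‖ ^ 2 := by
  have hC0 : 0 ≤ C := (norm_nonneg _).trans (hC a ha)
  have hsub : segment ℝ a b ⊆ s := hs.segment_subset ha hb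
  have hb1 : ∀ x ∈ segment ℝ a b, ‖g1 x‖ ≤ C * ‖a - b‖ := by
    intro x hx
    have := hs.norm_image_sub_le_of_norm_hasDerivWithin_le
      (fun x hx => (h2 x hx).hasDerivWithinAt) hC hb (hsub hx)
    rw [hg1, sub_zero] at this
    refine this.trans (mul_le_mul_of_nonneg_left ?_ hC0)
    have h3 := dist_add_dist_of_mem_segment hx
    rw [dist_eq_norm, dist_eq_norm, dist_eq_norm] at h3
    have := norm_nonneg (a - x)
    linarith
  have := (convex_segment a b).norm_image_sub_le_of_norm_hasDerivWithin_le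
    (fun x hx => (h1 x (hsub hx)).hasDerivWithinAt) hb1 (right_mem_segment ℝ a b)
    (left_mem_segment ℝ a b)
  rw [hg, sub_zero] at this
  calc ‖g a‖ ≤ C * ‖a - b‖ * ‖a - b‖ := this
    _ = _ := by ring

noncomputable def Sn (n : ℕ) (u : ℂ) : ℂ := ∑ i ∈ Finset.range n, ∑ l ∈ Finset.range i, u ^ l

lemma one_sub_mul_Sn (n : ℕ) (u : ℂ) :
    (1 - u) * Sn n u = ∑ i ∈ Finset.range n, (1 - u ^ i) := by
  rw [Sn, Finset.mul_sum]
  refine Finset.sum_congr rfl fun i _ => ?_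
  rw [mul_comm, geom_sum_mul_neg]

lemma sq_mul_Sn (n : ℕ) (u : ℂ) : (1 - u) ^ 2 * Sn n u = n * (1 - u) - (1 - u ^ n) := by
  rw [sq, mul_assoc, one_sub_mul_Sn, Finset.sum_sub_distrib, ← geom_sum_mul_neg u n]
  simp; ring

lemma Sn_one (n : ℕ) : 2 * Sn n 1 = n * (n - 1) := by
  induction n with
  | zero => simp [Sn]
  | succ n ih =>
    rw [Sn, Finset.sum_range_succ, ← Sn, mul_add, ih]
    simp; ring

lemma continuous_Sn (n : ℕ) : Continuous (Sn n) := by
  unfold Sn; fun_prop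

lemma Sn_slit (j : ℕ) {u : ℂ} (hu : ‖u‖ = 1) : 0 < ‖Sn (j + 2) u‖ + (Sn (j + 2) u).re := by
  by_contra hn
  have hre := (abs_le.1 (abs_re_le_norm (Sn (j + 2) u))).1
  have h1 : ‖Sn (j + 2) u‖ = -(Sn (j + 2) u).re := by linarith
  have him : (Sn (j + 2) u).im = 0 := by
    have := Complex.sq_norm (Sn (j + 2) u)
    rw [h1, normSq_apply] at this
    nlinarith
  have hre0 : (Sn (j + 2) u).re ≤ 0 := by linarith [norm_nonneg (Sn (j + 2) u)]
  by_cases h : u = 1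
  · subst h
    have := congrArg Complex.re (Sn_one (j + 2))
    simp at this
    nlinarith [(Nat.cast_nonneg j : (0 : ℝ) ≤ j)]
  · have hure : u.re < 1 := by
      have h2 := (abs_le.1 (abs_re_le_norm u)).2
      rw [hu] at h2
      refine h2.lt_of_ne fun h3 => h ?_
      have := Complex.sq_norm u
      rw [hu, normSq_apply, h3] at this
      apply Complex.ext <;> simp [h3]
      nlinarith
    have h2 := congrArg Complex.re (one_sub_mul_Sn (j + 2) u)
    rw [mul_re, him, re_sum] at h2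
    have h3 : ∀ i ∈ Finset.range (j + 2), 0 ≤ (1 - u ^ i).re := by
      intro i _
      have := (abs_le.1 (abs_re_le_norm (u ^ i))).2
      rw [norm_pow, hu, one_pow] at this
      simp only [sub_re, one_re]; linarith
    have h4 := Finset.single_le_sum h3 (show 1 ∈ Finset.range (j + 2) by simp)
    simp only [sub_re, one_re, pow_one] at h4 h2
    nlinarith

lemma Sn_sector (j : ℕ) : ∃ δ η : ℝ, 0 < δ ∧ 0 < η ∧
    ∀ u : ℂ, ‖u‖ = 1 → Sector δ (Sn (j + 2) u) ∧ η ≤ ‖Sn (j + 2) u‖ := by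
  have hc := continuous_Sn (j + 2)
  obtain ⟨u₀, hu₀, hmin⟩ := (isCompact_sphere (0 : ℂ) 1).exists_isMinOn
    (f := fun u => ‖Sn (j + 2) u‖ + (Sn (j + 2) u).re) ⟨1, by simp⟩ (by fun_prop)
  obtain ⟨u₁, hu₁, hmax⟩ := (isCompact_sphere (0 : ℂ) 1).exists_isMaxOn
    (f := fun u => ‖Sn (j + 2) u‖) ⟨1, by simp⟩ (by fun_prop)
  have hm := Sn_slit j (by simpa using hu₀ : ‖u₀‖ = 1)
  set m := ‖Sn (j + 2) u₀‖ + (Sn (j + 2) u₀).re
  set M := ‖Sn (j + 2) u₁‖ + 1
  have hM : 0 < M := by positivity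
  refine ⟨m / M, m / 2, by positivity, by positivity, fun u hu => ?_⟩
  have h1 : m ≤ ‖Sn (j + 2) u‖ + (Sn (j + 2) u).re := hmin (by simpa using hu)
  have h2 : ‖Sn (j + 2) u‖ ≤ ‖Sn (j + 2) u₁‖ := hmax (by simpa using hu)
  have h3 := (abs_le.1 (abs_re_le_norm (Sn (j + 2) u))).2
  refine ⟨⟨?_, ?_⟩, by linarith⟩
  · intro h0; rw [h0] at h1; simp at h1; linarith
  · refine le_trans ?_ h1
    rw [div_mul_eq_mul_div, div_le_iff₀ hM]
    exact mul_le_mul_of_nonneg_left (by linarith) hm.le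

lemma psiD_core {φ ψ : ℂ → ℂ} {x₀ : ℂ} (hx : x₀.im = 0) (hφ : AnalyticAt ℂ φ x₀)
    (hψ : AnalyticAt ℂ ψ x₀) (j : ℕ) (c : ℂ) {ε : ℝ}
    (hb : ∀ᶠ p : ℂ × ℂ in 𝓝 (x₀, x₀), ‖p.1 - x₀‖ ≤ ‖p.2 - x₀‖ →
      ‖deriv (deriv ψ) p.1 * deriv φ p.2 - deriv (deriv φ) p.1 * deriv ψ p.2
        - c * ((j + 2) * (j + 1)) * (p.1 - x₀) ^ j‖ ≤ ε * ‖p.2 - x₀‖ ^ j) :
    ∀ᶠ z in 𝓝[≠] x₀, ‖PsiD φ ψ z - 2 * I * c * ((z - x₀) ^ j *
      Sn (j + 2) (conj (z - x₀) / (z - x₀)))‖ ≤ 2 * ε * ‖z - x₀‖ ^ j := by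
  obtain ⟨r₁, hr₁, h₁⟩ := Metric.eventually_nhds_iff.1 hb
  obtain ⟨r₂, hr₂, h₂⟩ := Metric.eventually_nhds_iff.1
    (hφ.eventually_analyticAt.and hψ.eventually_analyticAt)
  have hx' : conj x₀ = x₀ := conj_eq_iff_im.2 hx
  filter_upwards [self_mem_nhdsWithin, mem_nhdsWithin_of_mem_nhds
    (Metric.ball_mem_nhds x₀ (lt_min hr₁ hr₂))] with z hz hzb
  have hne : z - x₀ ≠ 0 := sub_ne_zero.2 hz
  rw [Metric.mem_ball, lt_min_iff] at hzb
  have hbound : ∀ a ∈ Metric.closedBall x₀ ‖z - x₀‖,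
      ‖deriv (deriv ψ) a * deriv φ z - deriv (deriv φ) a * deriv ψ z
        - c * ((j + 2) * (j + 1)) * (a - x₀) ^ j‖ ≤ ε * ‖z - x₀‖ ^ j := by
    intro a ha
    rw [Metric.mem_closedBall] at ha
    refine h₁ (y := (a, z)) ?_ (by rwa [dist_eq_norm] at ha)
    rw [Prod.dist_eq, max_lt_iff]
    exact ⟨ha.trans_lt (by rw [← dist_eq_norm]; exact hzb.1), hzb.1⟩
  have hzmem : z ∈ Metric.closedBall x₀ ‖z - x₀‖ := by simp [dist_eq_norm]
  have hε : 0 ≤ ε * ‖z - x₀‖ ^ j := (norm_nonneg _).trans (hbound z hzmem)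
  by_cases him : z.im = 0
  · have h1 : conj (z - x₀) / (z - x₀) = 1 := by
      rw [map_sub, hx', conj_eq_iff_im.2 him, div_self hne]
    have h2 := hbound z hzmem
    have h3 : PsiD φ ψ z - 2 * I * c * ((z - x₀) ^ j * Sn (j + 2) (conj (z - x₀) / (z - x₀)))
        = I * (deriv (deriv ψ) z * deriv φ z - deriv (deriv φ) z * deriv ψ z
        - c * ((j + 2) * (j + 1)) * (z - x₀) ^ j) := by
      have h4 := Sn_one (j + 2)
      push_cast at h4
      rw [h1, PsiD, if_pos him, Dw]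
      linear_combination (-I * c * (z - x₀) ^ j) * h4
    rw [h3, norm_mul, norm_I, one_mul]
    linarith
  · set β := z - x₀ with hβ
    have hamem : conj z ∈ Metric.closedBall x₀ ‖β‖ := by
      have : conj z - x₀ = conj β := by rw [hβ, map_sub, hx']
      rw [Metric.mem_closedBall, dist_eq_norm, this, norm_conj]
    have han : ∀ a ∈ Metric.closedBall x₀ ‖β‖, AnalyticAt ℂ φ a ∧ AnalyticAt ℂ ψ a := by
      intro a ha
      rw [Metric.mem_closedBall] at ha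
      exact h₂ (ha.trans_lt (by rw [hβ, ← dist_eq_norm]; exact hzb.2))
    have key := mv2 (convex_closedBall x₀ ‖β‖)
      (g := fun a => Del φ ψ a z - c * ((j + 2) * β ^ (j + 1) * (β - (a - x₀)) -
        (β ^ (j + 2) - (a - x₀) ^ (j + 2))))
      (g1 := fun a => deriv ψ a * deriv φ z - deriv φ a * deriv ψ z -
        c * ((j + 2) * ((a - x₀) ^ (j + 1) - β ^ (j + 1))))
      (g2 := fun a => deriv (deriv ψ) a * deriv φ z - deriv (deriv φ) a * deriv ψ z
        - c * ((j + 2) * (j + 1)) * (a - x₀) ^ j) ?_ ?_ hamem hzmem (by simp [Del, hβ])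
      (by simp [hβ]; ring) hbound
    · have him' : (z.im : ℂ) ≠ 0 := by exact_mod_cast him
      have e1 : conj z - z = -(2 * I * z.im) := by
        apply Complex.ext <;> simp; ring
      have e2 : conj z - x₀ = conj β / β * β := by
        rw [div_mul_cancel₀ _ hne, hβ, map_sub, hx']
      have e3 : β - (conj z - x₀) = 2 * I * z.im := by
        rw [hβ]; linear_combination -e1
      set u := conj β / β
      have e4 := sq_mul_Sn (j + 2) u
      have e5 : (j + 2) * β ^ (j + 1) * (β - (conj z - x₀)) -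
          (β ^ (j + 2) - (conj z - x₀) ^ (j + 2)) = (2 * I * z.im) ^ 2 * (β ^ j * Sn (j + 2) u) := by
        rw [← e3, e2, mul_pow]
        push_cast at e4
        linear_combination (-β ^ (j + 2)) * e4
      rw [e5, e1] at key
      have e6 : PsiD φ ψ z - 2 * I * c * (β ^ j * Sn (j + 2) u) =
          (Del φ ψ (conj z) z - c * ((2 * I * z.im) ^ 2 * (β ^ j * Sn (j + 2) u)))
            / (2 * I * (z.im : ℂ) ^ 2) := by
        rw [PsiD, if_neg him]
        field_simp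
      have hy : 0 < |z.im| := abs_pos.2 him
      rw [e6, norm_div, div_le_iff₀ (by simpa using sq_pos_of_ne_zero him)]
      refine key.trans (le_of_eq ?_)
      simp [mul_pow]
      ring
    · intro a ha
      obtain ⟨h1, h2⟩ := han a ha
      have d1 := h1.differentiableAt.hasDerivAt
      have d2 := h2.differentiableAt.hasDerivAt
      have d3 := ((hasDerivAt_id a).sub_const x₀)
      have := (((d1.const_sub (φ z)).mul_const (deriv ψ z)).sub
        ((d2.const_sub (ψ z)).mul_const (deriv φ z))).sub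
        ((((d3.const_sub β).const_mul ((j + 2) * β ^ (j + 1))).sub
          ((d3.pow (j + 2)).const_sub (β ^ (j + 2)))).const_mul c)
      refine HasDerivAt.congr_deriv this ?_
      simp; ring
    · intro a ha
      obtain ⟨h1, h2⟩ := han a ha
      have d1 := h1.deriv.differentiableAt.hasDerivAt
      have d2 := h2.deriv.differentiableAt.hasDerivAt
      have d3 := ((hasDerivAt_id a).sub_const x₀)
      have := ((d2.mul_const (deriv φ z)).sub (d1.mul_const (deriv ψ z))).sub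
        ((((d3.pow (j + 1)).sub_const (β ^ (j + 1))).const_mul ((j : ℂ) + 2)).const_mul c)
      refine HasDerivAt.congr_deriv this ?_
      simp; ring

theorem continuousAt_psiD {φ ψ : ℂ → ℂ} {x₀ : ℂ} (hx : x₀.im = 0) (hφ : AnalyticAt ℂ φ x₀)
    (hψ : AnalyticAt ℂ ψ x₀) : ContinuousAt (PsiD φ ψ) x₀ := by
  rw [continuousAt_iff_punctured_nhds, Metric.tendsto_nhds]
  intro ε hε
  have hc : ContinuousAt (fun p : ℂ × ℂ => ‖deriv (deriv ψ) p.1 * deriv φ p.2 -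
      deriv (deriv φ) p.1 * deriv ψ p.2 + Dw φ ψ x₀‖) (x₀, x₀) := by
    have d1 : ContinuousAt (fun p : ℂ × ℂ => deriv (deriv ψ) p.1) (x₀, x₀) :=
      hψ.deriv.deriv.continuousAt.fst'
    have d2 : ContinuousAt (fun p : ℂ × ℂ => deriv (deriv φ) p.1) (x₀, x₀) :=
      hφ.deriv.deriv.continuousAt.fst'
    have d3 : ContinuousAt (fun p : ℂ × ℂ => deriv ψ p.2) (x₀, x₀) :=
      hψ.deriv.continuousAt.snd'
    have d4 : ContinuousAt (fun p : ℂ × ℂ => deriv φ p.2) (x₀, x₀) :=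
      hφ.deriv.continuousAt.snd'
    fun_prop
  have h1 := hc.eventually (gt_mem_nhds (a := ε / 4) (by
    simp only [Dw]; ring_nf; simpa using hε))
  have h2 := psiD_core hx hφ hψ 0 (-Dw φ ψ x₀ / 2) (ε := ε / 4) (by
    filter_upwards [h1] with p hp _
    rw [pow_zero, pow_zero, mul_one, mul_one]
    refine le_trans (le_of_eq ?_) hp.le
    congr 1
    push_cast; ring)
  filter_upwards [h2] with z hz
  rw [dist_eq_norm]
  have h3 : Sn (0 + 2) (conj (z - x₀) / (z - x₀)) = 1 := by simp [Sn, Finset.sum_range_succ]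
  rw [h3] at hz
  have h4 : PsiD φ ψ x₀ = 2 * I * (-Dw φ ψ x₀ / 2) * ((z - x₀) ^ 0 * 1) := by
    rw [PsiD, if_pos hx]; ring
  rw [h4]
  refine hz.trans_lt ?_
  simp; linarith

theorem locIdx_real {P ρ : ℂ → ℂ} {x₀ : ℂ} (hx : x₀.im = 0) (hP : AnalyticAt ℂ P x₀)
    (hρ : AnalyticAt ℂ ρ x₀) (hne : deriv P x₀ ≠ 0 ∨ deriv ρ x₀ ≠ 0) (h0 : Dw ρ P x₀ = 0)
    (hnd : ∀ A B : ℂ, (A ≠ 0 ∨ B ≠ 0) → ¬ ∀ᶠ z in 𝓝 x₀, B * deriv P z - A * deriv ρ z = 0) :
    ∃ k : ℤ, 1 ≤ k ∧ LocIdx (PsiD ρ P) x₀ k := by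
  set A := deriv P x₀ with hA
  set B := deriv ρ x₀ with hB
  set M : ℂ := A * conj A + B * conj B with hM
  have hM0 : M ≠ 0 := by
    rw [hM, mul_conj, mul_conj]
    have : 0 < normSq A + normSq B := by
      rcases hne with h | h
      · have := normSq_pos.2 h; have := normSq_nonneg B; linarith
      · have := normSq_pos.2 h; have := normSq_nonneg A; linarith
    exact_mod_cast this.ne'
  have hP1 := hP.deriv
  have hρ1 := hρ.deriv
  set ψ₁ : ℂ → ℂ := fun z => B * deriv P z - A * deriv ρ z with hψ₁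
  have hψa : AnalyticAt ℂ ψ₁ x₀ := by fun_prop
  obtain ⟨j, G₁, hG₁, hG₁0, hform1⟩ := exists_pow_form hψa (by simp [hψ₁, ← hA, ← hB]; ring)
    (hnd A B hne)
  obtain ⟨G₂, hG₂, hG₂0, hform2⟩ := deriv_pow_form hG₁ hform1
  have hG₂ne : G₂ x₀ ≠ 0 := by
    rw [hG₂0]; exact mul_ne_zero (by exact_mod_cast Nat.succ_ne_zero j) hG₁0
  have hdψ : ∀ᶠ z in 𝓝 x₀, deriv ψ₁ z = B * deriv (deriv P) z - A * deriv (deriv ρ) z := by
    filter_upwards [hP1.eventually_analyticAt, hρ1.eventually_analyticAt] with z h1 h2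
    exact ((h1.differentiableAt.hasDerivAt.const_mul B).sub
      (h2.differentiableAt.hasDerivAt.const_mul A)).deriv
  have hj : j ≠ 0 := by
    rintro rfl
    have h1 := hform2.self_of_nhds
    rw [hdψ.self_of_nhds] at h1
    simp only [Dw, ← hA, ← hB] at h0
    apply hG₂ne
    simp only [pow_zero, one_mul] at h1
    rw [← h1]; linear_combination -h0
  refine ⟨j, by omega, ?_⟩
  obtain ⟨δ, η, hδ, hη, hS⟩ := Sn_sector j
  have hj2 : ((j : ℂ) + 2) * (j + 1) ≠ 0 :=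
    mul_ne_zero (by exact_mod_cast Nat.succ_ne_zero (j + 1)) (by exact_mod_cast Nat.succ_ne_zero j)
  set c := G₂ x₀ / ((j + 2) * (j + 1)) with hc
  have hc0 : 2 * I * c ≠ 0 := mul_ne_zero (mul_ne_zero two_ne_zero I_ne_zero) (div_ne_zero hG₂ne hj2)
  refine ⟨2 * I * c, δ / 4, hc0, by positivity, ?_⟩
  set ε := δ / 8 * η * ‖2 * I * c‖ with hε
  have hεpos : 0 < ε := by have := norm_pos_iff.2 hc0; positivity
  have hcont : ContinuousAt (fun p : ℂ × ℂ =>
      ‖G₂ p.1 * (conj A * deriv P p.2 + conj B * deriv ρ p.2) / M - G₂ x₀‖ +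
      ‖(conj A * deriv (deriv P) p.1 + conj B * deriv (deriv ρ) p.1) * ((p.2 - x₀) * G₁ p.2) / M‖)
      (x₀, x₀) := by
    have d1 : ContinuousAt (fun p : ℂ × ℂ => deriv (deriv P) p.1) (x₀, x₀) :=
      hP1.deriv.continuousAt.fst'
    have d2 : ContinuousAt (fun p : ℂ × ℂ => deriv (deriv ρ) p.1) (x₀, x₀) :=
      hρ1.deriv.continuousAt.fst'
    have d3 : ContinuousAt (fun p : ℂ × ℂ => deriv P p.2) (x₀, x₀) := hP1.continuousAt.snd'
    have d4 : ContinuousAt (fun p : ℂ × ℂ => deriv ρ p.2) (x₀, x₀) := hρ1.continuousAt.snd'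
    have d5 : ContinuousAt (fun p : ℂ × ℂ => G₁ p.2) (x₀, x₀) := hG₁.continuousAt.snd'
    have d6 : ContinuousAt (fun p : ℂ × ℂ => G₂ p.1) (x₀, x₀) := hG₂.continuousAt.fst'
    fun_prop
  have h1 := hcont.eventually (gt_mem_nhds (a := ε) (by
    have : conj A * A + conj B * B = M := by rw [hM]; ring
    simp only [← hA, ← hB, this, mul_div_cancel_right₀ _ hM0]
    simpa using hεpos))
  have h2 := psiD_core hx hρ hP j c (ε := ε) (by
    filter_upwards [h1, (continuous_fst.tendsto (x₀, x₀)).eventually (hform2.and hdψ),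
      (continuous_snd.tendsto (x₀, x₀)).eventually hform1] with p hp ⟨hp2, hp3⟩ hp1 hle
    have e1 : deriv (deriv P) p.1 * deriv ρ p.2 - deriv (deriv ρ) p.1 * deriv P p.2
        - c * ((j + 2) * (j + 1)) * (p.1 - x₀) ^ j =
        (p.1 - x₀) ^ j * (G₂ p.1 * (conj A * deriv P p.2 + conj B * deriv ρ p.2) / M - G₂ x₀) -
        (p.2 - x₀) ^ j * ((conj A * deriv (deriv P) p.1 + conj B * deriv (deriv ρ) p.1) *
          ((p.2 - x₀) * G₁ p.2) / M) := by
      rw [hc, div_mul_cancel₀ _ hj2]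
      rw [hp3] at hp2
      simp only [hψ₁] at hp1
      field_simp
      rw [hM]
      linear_combination (conj A * deriv P p.2 + conj B * deriv ρ p.2) * hp2 -
        (conj A * deriv (deriv P) p.1 + conj B * deriv (deriv ρ) p.1) * hp1
    rw [e1]
    refine (norm_sub_le _ _).trans ?_
    rw [norm_mul, norm_mul ((p.2 - x₀) ^ j), norm_pow, norm_pow]
    have h5 : ‖p.1 - x₀‖ ^ j ≤ ‖p.2 - x₀‖ ^ j := pow_le_pow_left₀ (norm_nonneg _) hle j
    have h6 : 0 ≤ ‖p.2 - x₀‖ ^ j := by positivity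
    nlinarith [mul_le_mul_of_nonneg_right h5
      (norm_nonneg (G₂ p.1 * (conj A * deriv P p.2 + conj B * deriv ρ p.2) / M - G₂ x₀)),
      mul_le_mul_of_nonneg_left hp.le h6])
  filter_upwards [h2, self_mem_nhdsWithin] with z hz hne'
  have hβ : z - x₀ ≠ 0 := sub_ne_zero.2 hne'
  have hu : ‖conj (z - x₀) / (z - x₀)‖ = 1 := by
    rw [norm_div, norm_conj, div_self (norm_ne_zero_iff.2 hβ)]
  obtain ⟨hS1, hS2⟩ := hS _ hu
  apply hS1.perturb hδ
  set S := Sn (j + 2) (conj (z - x₀) / (z - x₀))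
  have hβj : (z - x₀) ^ j ≠ 0 := pow_ne_zero _ hβ
  have e1 : PsiD ρ P z / (z - x₀) ^ (j : ℤ) / (2 * I * c) - S =
      (PsiD ρ P z - 2 * I * c * ((z - x₀) ^ j * S)) / ((z - x₀) ^ j * (2 * I * c)) := by
    rw [zpow_natCast, div_div, eq_div_iff (mul_ne_zero hβj hc0), sub_mul,
      div_mul_cancel₀ _ (mul_ne_zero hβj hc0)]
    ring
  rw [e1, norm_div, div_le_iff₀ (norm_pos_iff.2 (mul_ne_zero hβj hc0)), norm_mul, norm_pow]
  refine hz.trans ?_
  have h7 : 0 ≤ ‖z - x₀‖ ^ j * ‖2 * I * c‖ := by positivity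
  have := mul_le_mul_of_nonneg_right (mul_le_mul_of_nonneg_left hS2 (by positivity : 0 ≤ δ / 4)) h7
  refine le_trans (le_of_eq ?_) this
  rw [hε]; ring

end Pool.Agent.MP_4e5648_mp.H15
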