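import Mathlib

set_option autoImplicit false

namespace Pool.Agent.MP_4e5648_mp.H15

open Complex Filter Topology Set
open scoped Real

/-- winding number of a loop parametrised on `[0, 2π]`, as a relation -/
def HasWind (γ : ℝ → ℂ) (n : ℤ) : Prop :=
  ∃ L : ℝ → ℂ, Continuous L ∧ (∀ x, exp (L x) = γ x) ∧ L (2 * π) - L 0 = n * (2 * π * I)

lemma const_of_exp_eq_one {A : Type*} [TopologicalSpace A] [PreconnectedSpace A] {g : A → ℂ}
    (hg : Continuous g) (h : ∀ a, exp (g a) = 1) (a a' : A) : g a = g a' :=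
  isCoveringMap_exp.const_of_comp hg (fun a a' => Subtype.ext (by simp [h])) a a'

lemma HasWind.unique {γ : ℝ → ℂ} {m n : ℤ} (hm : HasWind γ m) (hn : HasWind γ n) : m = n := by
  obtain ⟨L, hL, hL1, hL2⟩ := hm
  obtain ⟨M, hM, hM1, hM2⟩ := hn
  have h := const_of_exp_eq_one (g := fun x => L x - M x) (hL.sub hM)
    (fun a => by rw [exp_sub, hL1, ← hM1 a, div_self (exp_ne_zero _)]) (2 * π) 0
  have h2 : (m : ℂ) * (2 * π * I) = n * (2 * π * I) := by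
    rw [← hL2, ← hM2]; linear_combination h
  have h3 : (m : ℂ) = n := mul_right_cancel₀ two_pi_I_ne_zero h2
  exact_mod_cast h3

lemma HasWind.mul {γ η : ℝ → ℂ} {m n : ℤ} (hm : HasWind γ m) (hn : HasWind η n) :
    HasWind (fun x => γ x * η x) (m + n) := by
  obtain ⟨L, hL, hL1, hL2⟩ := hm
  obtain ⟨M, hM, hM1, hM2⟩ := hn
  refine ⟨fun x => L x + M x, hL.add hM, fun x => by rw [exp_add, hL1, hM1], ?_⟩
  push_cast
  linear_combination hL2 + hM2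

lemma HasWind.zpow {γ : ℝ → ℂ} {m : ℤ} (hm : HasWind γ m) (k : ℤ) :
    HasWind (fun x => γ x ^ k) (k * m) := by
  obtain ⟨L, hL, hL1, hL2⟩ := hm
  refine ⟨fun x => k * L x, continuous_const.mul hL, fun x => by rw [exp_int_mul, hL1], ?_⟩
  push_cast
  linear_combination (k : ℂ) * hL2

lemma HasWind.congr {γ η : ℝ → ℂ} {m : ℤ} (hm : HasWind γ m) (h : ∀ x, γ x = η x) :
    HasWind η m := by
  have : γ = η := funext h
  rwa [← this]

lemma HasWind.ne_zero {γ : ℝ → ℂ} {m : ℤ} (hm : HasWind γ m) (x : ℝ) : γ x ≠ 0 := by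
  obtain ⟨L, -, hL1, -⟩ := hm
  rw [← hL1]; exact exp_ne_zero _

lemma hasWind_const {c : ℂ} (hc : c ≠ 0) : HasWind (fun _ => c) 0 :=
  ⟨fun _ => log c, continuous_const, fun _ => exp_log hc, by simp⟩

lemma hasWind_of_slit {γ : ℝ → ℂ} (hc : Continuous γ) (hs : ∀ x, γ x ∈ slitPlane)
    (hp : γ (2 * π) = γ 0) : HasWind γ 0 :=
  ⟨fun x => log (γ x), hc.clog hs, fun x => exp_log (slitPlane_ne_zero (hs x)), by simp [hp]⟩

lemma hasWind_exp : HasWind (fun x : ℝ => exp (x * I)) 1 :=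
  ⟨fun x => x * I, by fun_prop, fun _ => rfl, by simp⟩

lemma one_sub_mem_slit {z : ℂ} (hz : ‖z‖ < 1) : 1 - z ∈ slitPlane := by
  left
  have := (abs_le.1 (abs_re_le_norm z)).2
  simp only [sub_re, one_re]; linarith

lemma hasWind_circle_in {ρ : ℝ} {w : ℂ} (h : ‖w‖ < ρ) :
    HasWind (fun x : ℝ => ρ * exp (x * I) - w) 1 := by
  have hρ : 0 < ρ := (norm_nonneg _).trans_lt h
  have hρ' : (ρ : ℂ) ≠ 0 := by exact_mod_cast hρ.ne'
  have h1 : HasWind (fun x : ℝ => 1 - w / (ρ * exp (x * I))) 0 := by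
    apply hasWind_of_slit
    · refine continuous_const.sub (continuous_const.div (by fun_prop) fun x => ?_)
      exact mul_ne_zero hρ' (exp_ne_zero _)
    · intro x
      apply one_sub_mem_slit
      rw [norm_div, norm_mul, norm_exp_ofReal_mul_I, norm_real, Real.norm_of_nonneg hρ.le, mul_one,
        div_lt_one hρ]
      exact h
    · simp
  have := ((hasWind_const hρ').mul hasWind_exp).mul h1
  refine (by simpa using this : HasWind _ 1).congr fun x => ?_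
  have := exp_ne_zero (x * I)
  field_simp

lemma hasWind_circle_out {ρ : ℝ} {w : ℂ} (hρ : 0 ≤ ρ) (h : ρ < ‖w‖) :
    HasWind (fun x : ℝ => ρ * exp (x * I) - w) 0 := by
  have hw : 0 < ‖w‖ := hρ.trans_lt h
  have hw' : w ≠ 0 := norm_pos_iff.1 hw
  have h1 : HasWind (fun x : ℝ => 1 - (ρ * exp (x * I)) / w) 0 := by
    apply hasWind_of_slit
    · fun_prop
    · intro x
      apply one_sub_mem_slit
      rw [norm_div, norm_mul, norm_exp_ofReal_mul_I, norm_real, Real.norm_of_nonneg hρ, mul_one,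
        div_lt_one hw]
      exact h
    · simp
  have := (hasWind_const (neg_ne_zero.2 hw')).mul h1
  refine (by simpa using this : HasWind _ 0).congr fun x => ?_
  field_simp
  ring

/-- closed annulus -/
def Ann (ρ₁ ρ₂ : ℝ) : Set ℂ := {w | ρ₁ ≤ ‖w‖ ∧ ‖w‖ ≤ ρ₂}

lemma wind_eq_of_ann {G : ℂ → ℂ} {ρ₁ ρ₂ : ℝ} (h0 : 0 ≤ ρ₁) (h12 : ρ₁ ≤ ρ₂)
    (hc : ContinuousOn G (Ann ρ₁ ρ₂)) (hz : ∀ w ∈ Ann ρ₁ ρ₂, G w ≠ 0) {m n : ℤ}
    (hm : HasWind (fun x : ℝ => G (ρ₁ * exp (x * I))) m)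
    (hn : HasWind (fun x : ℝ => G (ρ₂ * exp (x * I))) n) : m = n := by
  set u : ℝ × ℝ → ℂ := fun p => ((max ρ₁ (min p.1 ρ₂) : ℝ) : ℂ) * exp (p.2 * I) with hu
  have huc : Continuous u := by fun_prop
  have hmem : ∀ p, u p ∈ Ann ρ₁ ρ₂ := by
    intro p
    have h1 : ρ₁ ≤ max ρ₁ (min p.1 ρ₂) := le_max_left _ _
    have h2 : max ρ₁ (min p.1 ρ₂) ≤ ρ₂ := max_le h12 (min_le_right _ _)
    have : ‖u p‖ = max ρ₁ (min p.1 ρ₂) := by
      rw [hu]; dsimp only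
      rw [norm_mul, norm_exp_ofReal_mul_I, norm_real, Real.norm_of_nonneg (h0.trans h1), mul_one]
    exact ⟨this ▸ h1, this ▸ h2⟩
  have hg : Continuous (fun p => G (u p)) := hc.comp_continuous huc hmem
  have hsc : IsSimplyConnected (univ : Set (ℝ × ℝ)) := by
    have : ContractibleSpace (univ : Set (ℝ × ℝ)) :=
      convex_univ.contractibleSpace univ_nonempty
    unfold IsSimplyConnected
    infer_instance
  obtain ⟨L, hL, hL1⟩ := exists_continuousOn_eqOn_exp_comp hsc isOpen_univ hg.continuousOn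
    (by rintro ⟨p, -, hp⟩; exact hz _ (hmem p) hp)
  have hL' : Continuous L := continuousOn_univ.1 hL
  have hL2 : ∀ p, exp (L p) = G (u p) := fun p => hL1 (mem_univ p)
  have hN : ∀ t, exp (L (t, 2 * π) - L (t, 0)) = 1 := by
    intro t
    have : u (t, 2 * π) = u (t, 0) := by simp [hu]
    rw [exp_sub, hL2, this, ← hL2, div_self (exp_ne_zero _)]
  have hconst := const_of_exp_eq_one (g := fun t => L (t, 2 * π) - L (t, 0)) (by fun_prop) hN ρ₁ ρ₂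
  obtain ⟨k, hk⟩ := exp_eq_one_iff.1 (hN ρ₁)
  have h1 : HasWind (fun x : ℝ => G (ρ₁ * exp (x * I))) k :=
    ⟨fun x => L (ρ₁, x), by fun_prop, fun x => by simp [hL2, hu, h12], hk⟩
  have h2 : HasWind (fun x : ℝ => G (ρ₂ * exp (x * I))) k :=
    ⟨fun x => L (ρ₂, x), by fun_prop, fun x => by simp [hL2, hu, h12], hconst ▸ hk⟩
  rw [hm.unique h1, hn.unique h2]

/-- `ξ` is nonzero and stays in a closed sector avoiding the negative real axis -/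
def Sector (δ : ℝ) (ξ : ℂ) : Prop := ξ ≠ 0 ∧ δ * ‖ξ‖ ≤ ‖ξ‖ + ξ.re

lemma Sector.mem_slit {δ : ℝ} {ξ : ℂ} (hδ : 0 < δ) (h : Sector δ ξ) : ξ ∈ slitPlane := by
  by_contra hn
  simp only [slitPlane, mem_ofPred_eq, not_or, not_lt, not_not] at hn
  have h1 : ‖ξ‖ = -ξ.re := by
    have : ξ = (ξ.re : ℂ) := by apply Complex.ext <;> simp [hn.2]
    rw [this, norm_real, Real.norm_of_nonpos hn.1]; simp
  have h2 : 0 < δ * ‖ξ‖ := mul_pos hδ (norm_pos_iff.2 h.1)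
  have := h.2
  linarith

lemma Sector.perturb {δ : ℝ} {ξ ξ' : ℂ} (hδ : 0 < δ) (h : Sector δ ξ)
    (h' : ‖ξ' - ξ‖ ≤ δ / 4 * ‖ξ‖) : Sector (δ / 4) ξ' := by
  have hpos : 0 < ‖ξ‖ := norm_pos_iff.2 h.1
  have h1 := h.2
  have h2 : ξ.re ≤ ‖ξ‖ := (abs_le.1 (abs_re_le_norm ξ)).2
  have hδ2 : δ ≤ 2 := by nlinarith
  have h3 : ‖ξ‖ - ‖ξ' - ξ‖ ≤ ‖ξ'‖ := by
    have := norm_sub_norm_le ξ (ξ - ξ')
    rw [norm_sub_rev ξ' ξ]; simpa using norm_sub_le_norm_sub_add_norm_sub ξ (ξ - ξ') 0 |>.trans' (by simp) |> fun h => by simpa using h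
  have h4 : ‖ξ'‖ ≤ ‖ξ‖ + ‖ξ' - ξ‖ := by simpa using norm_add_le ξ (ξ' - ξ)
  have h5 : ξ.re - ‖ξ' - ξ‖ ≤ ξ'.re := by
    have := (abs_le.1 (abs_re_le_norm (ξ' - ξ))).1
    simp only [sub_re] at this; linarith
  have h6 : δ / 2 * ‖ξ‖ ≤ ‖ξ'‖ + ξ'.re := by nlinarith
  refine ⟨?_, by nlinarith⟩
  rintro rfl
  simp at h6
  nlinarith

lemma Sector.pos_mul {δ t : ℝ} {ξ : ℂ} (ht : 0 < t) (h : Sector δ ξ) : Sector δ (t * ξ) := by
  refine ⟨mul_ne_zero (by exact_mod_cast ht.ne') h.1, ?_⟩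
  rw [norm_mul, norm_real, Real.norm_of_nonneg ht.le, re_ofReal_mul]
  have := h.2
  nlinarith

lemma sector_of_re_pos {ξ : ℂ} (h : 0 < ξ.re) : Sector 1 ξ :=
  ⟨by rintro rfl; simp at h, by linarith⟩

/-- along the filter `l`, the function stays in a sector of opening less than `2π` -/
def LocSec {X : Type*} (g : X → ℂ) (l : Filter X) : Prop :=
  ∃ (γ : ℂ) (δ : ℝ), γ ≠ 0 ∧ 0 < δ ∧ ∀ᶠ z in l, Sector δ (g z / γ)

lemma LocSec.mul_tendsto {X : Type*} {g c : X → ℂ} {l : Filter X} {c₀ : ℂ} (h : LocSec g l)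
    (hc : Tendsto c l (𝓝 c₀)) (h0 : c₀ ≠ 0) : LocSec (fun z => c z * g z) l := by
  obtain ⟨γ, δ, hγ, hδ, h⟩ := h
  refine ⟨c₀ * γ, δ / 4, mul_ne_zero h0 hγ, by positivity, ?_⟩
  have h1 : Tendsto (fun z => ‖c z / c₀ - 1‖) l (𝓝 0) := by
    have := ((hc.div_const c₀).sub_const 1).norm
    simpa [div_self h0] using this
  filter_upwards [h, h1.eventually (ge_mem_nhds (show (0 : ℝ) < δ / 4 by positivity))] with z hz hz'
  apply hz.perturb hδ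
  have : c z * g z / (c₀ * γ) - g z / γ = (c z / c₀ - 1) * (g z / γ) := by field_simp
  rw [this, norm_mul]
  exact mul_le_mul_of_nonneg_right hz' (norm_nonneg _)

lemma LocSec.congr_pos {X : Type*} {g g' : X → ℂ} {l : Filter X} (h : LocSec g l)
    (h' : ∀ᶠ z in l, ∃ t : ℝ, 0 < t ∧ g' z = t * g z) : LocSec g' l := by
  obtain ⟨γ, δ, hγ, hδ, h⟩ := h
  refine ⟨γ, δ, hγ, hδ, ?_⟩
  filter_upwards [h, h'] with z hz ⟨t, ht, hz'⟩
  rw [hz', mul_div_assoc]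
  exact hz.pos_mul ht

lemma LocSec.congr {X : Type*} {g g' : X → ℂ} {l : Filter X} (h : LocSec g l)
    (h' : ∀ᶠ z in l, g' z = g z) : LocSec g' l :=
  h.congr_pos (h'.mono fun z hz => ⟨1, one_pos, by simp [hz]⟩)

lemma locSec_of_tendsto {X : Type*} {c : X → ℂ} {l : Filter X} {c₀ : ℂ}
    (hc : Tendsto c l (𝓝 c₀)) (h0 : c₀ ≠ 0) : LocSec c l := by
  have h : LocSec (fun _ : X => (1 : ℂ)) l :=
    ⟨1, 1, one_ne_zero, one_pos, Eventually.of_forall fun _ => sector_of_re_pos (by simp)⟩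
  simpa using h.mul_tendsto hc h0

lemma LocSec.eventually_ne {X : Type*} {g : X → ℂ} {l : Filter X} (h : LocSec g l) :
    ∀ᶠ z in l, g z ≠ 0 := by
  obtain ⟨γ, δ, -, -, h⟩ := h
  filter_upwards [h] with z hz h0
  exact hz.1 (by simp [h0])

/-- `f` has local index `k` at `z₀` (in a strong, checkable form) -/
def LocIdx (f : ℂ → ℂ) (z₀ : ℂ) (k : ℤ) : Prop :=
  LocSec (fun z => f z / (z - z₀) ^ k) (𝓝[≠] z₀)

lemma LocIdx.mul_tendsto {f c : ℂ → ℂ} {z₀ c₀ : ℂ} {k : ℤ} (h : LocIdx f z₀ k)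
    (hc : Tendsto c (𝓝[≠] z₀) (𝓝 c₀)) (h0 : c₀ ≠ 0) : LocIdx (fun z => c z * f z) z₀ k :=
  (LocSec.mul_tendsto h hc h0).congr (Eventually.of_forall fun z => by simp [mul_div_assoc])

lemma LocIdx.congr_pos {f f' : ℂ → ℂ} {z₀ : ℂ} {k : ℤ} (h : LocIdx f z₀ k)
    (h' : ∀ᶠ z in 𝓝[≠] z₀, ∃ t : ℝ, 0 < t ∧ f' z = t * f z) : LocIdx f' z₀ k :=
  LocSec.congr_pos h (h'.mono fun z ⟨t, ht, hz⟩ => ⟨t, ht, by simp [hz, mul_div_assoc]⟩)

lemma LocIdx.congr {f f' : ℂ → ℂ} {z₀ : ℂ} {k : ℤ} (h : LocIdx f z₀ k)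
    (h' : ∀ᶠ z in 𝓝[≠] z₀, f' z = f z) : LocIdx f' z₀ k :=
  h.congr_pos (h'.mono fun z hz => ⟨1, one_pos, by simp [hz]⟩)

lemma LocIdx.eventually_ne {f : ℂ → ℂ} {z₀ : ℂ} {k : ℤ} (h : LocIdx f z₀ k) :
    ∀ᶠ z in 𝓝[≠] z₀, f z ≠ 0 := by
  filter_upwards [LocSec.eventually_ne h] with z hz h0
  exact hz (by simp [h0])

end Pool.Agent.MP_4e5648_mp.H15
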